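import Pool.Agent.Lib.MP_a2be38_co_h65.Types

/-!
# Almost positive designs with `O(d^t)` points
-/

set_option autoImplicit false

open Finset MeasureTheory Metric

namespace Pool.Agent.A2B65

open Pool.Agent.MP_a2be38_co

/-- the pointwise bound for the deficits -/
theorem deficit_bound {d : ℕ} {t : ℕ} (m : Fin d → ℕ) (hm : ∑ x, m x = 2 * t)
    (hev : ∀ x, Even (m x)) (hs : sup m + 1 < t) {q Λ r : ℝ} (hr1 : 1 ≤ r) (hr : r ^ 2 = Λ)
    (hq : 1 ≤ q) (hΛ : Λ ≤ (2 * t + 2) * Real.sqrt q) :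
    |(q + ∑ x, J r (m x)) - (q + t * Λ) * ∏ x, gam (m x)| * (q * Real.sqrt q) ≤
      q * (1 + t * (8 * t + 8) ^ (t + 1) + (1 + t * (2 * t + 2)) * ((2 * t).factorial : ℝ)) *
        (q ^ t * (q⁻¹) ^ sup m) := by
  have hJ := sum_J_le m hm hev hr1 hr hq hΛ
  have hG := prod_gam_le m
  rw [hm] at hG
  have hG0 : 0 ≤ ∏ x, gam (m x) := Finset.prod_nonneg fun x _ => gam_nonneg _
  set R := Real.sqrt q with hR
  set b := sup m with hb
  have hR1 : 1 ≤ R := by rw [hR]; exact Real.one_le_sqrt.mpr hq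
  have hRq : R ^ 2 = q := Real.sq_sqrt (by linarith)
  have hq0 : 0 < q := by linarith
  have ht0 : (0 : ℝ) ≤ t := Nat.cast_nonneg t
  have hΛ0 : 0 ≤ Λ := by rw [← hr]; positivity
  have hqb : q ^ t * (q⁻¹) ^ b = R ^ (2 * (t - b)) := by
    have h1 : q ^ t = q ^ (t - b) * q ^ b := by rw [← pow_add]; congr 1; omega
    rw [h1, mul_assoc, ← mul_pow, mul_inv_cancel₀ hq0.ne', one_pow, mul_one, pow_mul, hRq]
  rw [hqb]
  set P := R ^ (2 * (t - b)) with hP
  have hP0 : 0 < P := by positivity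
  -- the three parts
  have p1 : q * (q * R) ≤ q * P := by
    apply mul_le_mul_of_nonneg_left _ hq0.le
    calc q * R = R ^ 3 := by rw [← hRq]; ring
      _ ≤ P := pow_le_pow_right₀ hR1 (by omega)
  have p2 : |∑ x, J r (m x)| * (q * R) ≤ q * (t * (8 * t + 8) ^ (t + 1)) * P := by
    calc |∑ x, J r (m x)| * (q * R) ≤ (t * (8 * t + 8) ^ (t + 1) * R ^ (t + 1 - b)) * (q * R) :=
          mul_le_mul_of_nonneg_right hJ (by positivity)
      _ = q * (t * (8 * t + 8) ^ (t + 1)) * R ^ (t + 1 - b + 1) := by rw [pow_succ]; ring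
      _ ≤ q * (t * (8 * t + 8) ^ (t + 1)) * P := by
          apply mul_le_mul_of_nonneg_left _ (by positivity)
          exact pow_le_pow_right₀ hR1 (by omega)
  have hRleq : R ≤ q := by rw [← hRq]; nlinarith
  have p3 : (q + t * Λ) * (∏ x, gam (m x)) * (q * R) ≤
      q * ((1 + t * (2 * t + 2)) * ((2 * t).factorial : ℝ)) * P := by
    have h1 : q + t * Λ ≤ q * (1 + t * (2 * t + 2)) := by
      have : (t : ℝ) * Λ ≤ t * ((2 * t + 2) * q) := by
        apply mul_le_mul_of_nonneg_left _ ht0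
        exact hΛ.trans (mul_le_mul_of_nonneg_left hRleq (by positivity))
      nlinarith
    have h2 : (q + t * Λ) * (∏ x, gam (m x)) ≤
        (q * (1 + t * (2 * t + 2))) * ((2 * t).factorial : ℝ) :=
      mul_le_mul h1 hG hG0 (by positivity)
    have h3 : q * R ≤ P := by
      calc q * R = R ^ 3 := by rw [← hRq]; ring
        _ ≤ P := pow_le_pow_right₀ hR1 (by omega)
    calc (q + t * Λ) * (∏ x, gam (m x)) * (q * R)
        ≤ ((q * (1 + t * (2 * t + 2))) * ((2 * t).factorial : ℝ)) * P :=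
          mul_le_mul h2 h3 (by positivity) (by positivity)
      _ = _ := by ring
  have habs : |(q + ∑ x, J r (m x)) - (q + t * Λ) * ∏ x, gam (m x)| ≤
      q + |∑ x, J r (m x)| + (q + t * Λ) * ∏ x, gam (m x) := by
    have h0 : 0 ≤ (q + t * Λ) * ∏ x, gam (m x) := by positivity
    rw [abs_le]
    have h1 := neg_abs_le (∑ x, J r (m x))
    have h2 := le_abs_self (∑ x, J r (m x))
    constructor <;> linarith
  calc |(q + ∑ x, J r (m x)) - (q + t * Λ) * ∏ x, gam (m x)| * (q * R)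
      ≤ (q + |∑ x, J r (m x)| + (q + t * Λ) * ∏ x, gam (m x)) * (q * R) :=
        mul_le_mul_of_nonneg_right habs (by positivity)
    _ = q * (q * R) + |∑ x, J r (m x)| * (q * R) +
        (q + t * Λ) * (∏ x, gam (m x)) * (q * R) := by ring
    _ ≤ q * P + q * (t * (8 * t + 8) ^ (t + 1)) * P +
        q * ((1 + t * (2 * t + 2)) * ((2 * t).factorial : ℝ)) * P := by linarith
    _ = _ := by ring

/-- almost positive designs -/
theorem almost_positive {t : ℕ} (ht : 1 ≤ t) : ∃ C : ℝ, ∀ d : ℕ, 1 ≤ d →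
    ∃ N : ℕ, (N : ℝ) ≤ C * (d : ℝ) ^ t ∧ ∃ x : Fin N → Sp d, ∃ w : Fin N → ℝ,
      (∀ p : MvPolynomial (Fin d) ℝ, p.totalDegree ≤ 2 * t + 1 →
        ∑ i, w i * MvPolynomial.eval (fun j => WithLp.ofLp (x i : Eu d) j) p
          = ∫ y, MvPolynomial.eval (fun j => WithLp.ofLp (y : Eu d) j) p ∂(mu d)) ∧
      ((univ.filter fun i => w i < 0).card : ℝ) * (d : ℝ) ^ 2 ≤ C * (d : ℝ) ^ t ∧
      (∑ i, max (-(w i)) 0) * ((d : ℝ) * Real.sqrt d) ≤ C * ∑ i, w i := by
  classical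
  obtain ⟨s, rfl⟩ : ∃ s, t = s + 1 := ⟨t - 1, by omega⟩
  obtain ⟨B, hB0, hB⟩ := exists_local (2 * (s + 1)) (by omega)
  set t := s + 1 with ht'
  set C₁ : ℝ := 1 + t * (8 * t + 8) ^ (t + 1) + (1 + t * (2 * t + 2)) * ((2 * t).factorial : ℝ)
    with hC₁
  have hC₁0 : 0 < C₁ := by rw [hC₁]; positivity
  set E : ℝ := Real.exp ((2 * t : ℕ) : ℝ) with hE
  have hE0 : 0 < E := Real.exp_pos _
  set C₂ : ℝ := 2 * (4 * 2 ^ t + E * 2 ^ t) with hC₂
  set C₃ : ℝ := B * C₁ * E * 2 ^ t with hC₃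
  have hC₂0 : 0 ≤ C₂ := by rw [hC₂]; positivity
  have hC₃0 : 0 ≤ C₃ := by rw [hC₃]; positivity
  refine ⟨C₂ + C₃, fun d hd => ?_⟩
  obtain ⟨Ω₁, Ω₂, _, _, _, ε, j, hq1, hq2, hN1, hsq, h1, h2⟩ := exists_split s d hd
  set q : ℕ := Fintype.card Ω₂ with hq
  obtain ⟨Λ, hΛ1, hΛeq, hΛle⟩ := exists_height t q ht (by omega)
  set r := Real.sqrt Λ with hr
  have hrsq : r ^ 2 = Λ := Real.sq_sqrt (by linarith)
  have hr1 : 1 ≤ r := by rw [hr]; exact Real.one_le_sqrt.mpr hΛ1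
  have hqR : (1 : ℝ) ≤ q := by exact_mod_cast (by omega : 1 ≤ q)
  have hq0 : (0 : ℝ) < q := by linarith
  have hdq : (d : ℝ) ≤ q := by exact_mod_cast hq1.le
  have hqd : (q : ℝ) ≤ 2 * d := by exact_mod_cast hq2
  have hd0 : (0 : ℝ) < d := by exact_mod_cast hd
  set n₁ : ℝ := (Fintype.card Ω₁ : ℝ) with hn₁
  have hn₁0 : 0 < n₁ := by
    rw [hn₁]; exact_mod_cast Fintype.card_pos
  have ht0 : (0 : ℝ) ≤ t := Nat.cast_nonneg t
  set κ : ℝ := 2 * n₁ * (q + t * Λ) with hκ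
  have hκ0 : 0 < κ := by
    rw [hκ]
    have : 0 ≤ (t : ℝ) * Λ := mul_nonneg ht0 (by linarith)
    positivity
  -- moments of the main part
  have hmain : ∀ m : Fin d → ℕ, ∑ x, m x = 2 * t →
      ∑ p : Ω₁ × Ω₂ × Bool, ∏ x, yv ε j r p x ^ m x =
        if ∀ x, Even (m x) then 2 * n₁ * (q + ∑ x, J r (m x)) else 0 := by
    intro m hm
    rw [jump_moment ε j r hsq h1 h2 m (by rw [hm, ht']; omega)]
    split_ifs
    · ring
    · rfl
  let D : (Fin d → ℕ) → ℝ := fun m =>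
    if ∀ x, Even (m x) then 2 * n₁ * ((q + ∑ x, J r (m x)) - (q + t * Λ) * ∏ x, gam (m x)) else 0
  have hD : ∀ m : Fin d → ℕ, ∑ x, m x = 2 * t →
      ∑ p : Ω₁ × Ω₂ × Bool, ∏ x, yv ε j r p x ^ m x - D m = κ * ∏ x, gam (m x) := by
    intro m hm
    rw [hmain m hm]
    simp only [D]
    split_ifs with hev
    · rw [hκ]; ring
    · push Not at hev
      obtain ⟨x, hx⟩ := hev
      have : ∏ x, gam (m x) = 0 := Finset.prod_eq_zero (Finset.mem_univ x) (gam_odd hx)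
      rw [this]; ring
  have hD0 : ∀ m : Fin d → ℕ, ∑ x, m x = 2 * t → s ≤ sup m → D m = 0 := by
    intro m hm hs
    simp only [D]
    split_ifs with hev
    · rw [types_exact m hm hev (by omega) hrsq hΛeq, sub_self, mul_zero]
    · rfl
  obtain ⟨W, hW0, hWm, hWs⟩ := hB d s D hD0
  -- the sum of the deficits
  have hsumD : (∑ m : Fin d → Fin (2 * t + 1), if ∑ x, (m x : ℕ) = 2 * t then
      |D fun x => m x| else 0) * (q * Real.sqrt q) ≤ 2 * n₁ * q * C₁ * (q ^ t * E) := by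
    have h3 : ∀ m : Fin d → Fin (2 * t + 1), (if ∑ x, (m x : ℕ) = 2 * t then
        |D fun x => m x| else 0) * (q * Real.sqrt q) ≤
        2 * n₁ * q * C₁ * (q ^ t * ((q : ℝ)⁻¹) ^ sup (fun x => (m x : ℕ))) := by
      intro m
      have hpos : 0 ≤ 2 * n₁ * q * C₁ * (q ^ t * ((q : ℝ)⁻¹) ^ sup (fun x => (m x : ℕ))) := by
        positivity
      split_ifs with hm
      · by_cases hs : s ≤ sup (fun x => (m x : ℕ))
        · rw [hD0 _ hm hs, abs_zero, zero_mul]
          exact hpos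
        · simp only [D]
          split_ifs with hev
          · have h4 := deficit_bound (fun x => (m x : ℕ)) hm hev (by omega) hr1 hrsq hqR hΛle
            rw [← hC₁] at h4
            rw [abs_mul, abs_of_pos (by positivity : 0 < 2 * n₁)]
            calc 2 * n₁ * |(q + ∑ x, J r (m x)) - (q + t * Λ) * ∏ x, gam (m x)| *
                  (q * Real.sqrt q)
                = 2 * n₁ * (|(q + ∑ x, J r (m x)) - (q + t * Λ) * ∏ x, gam (m x)| *
                  (q * Real.sqrt q)) := by ring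
              _ ≤ 2 * n₁ * (q * C₁ * (q ^ t * ((q : ℝ)⁻¹) ^ sup (fun x => (m x : ℕ)))) :=
                  mul_le_mul_of_nonneg_left h4 (by positivity)
              _ = _ := by ring
          · rw [abs_zero, zero_mul]
            exact hpos
      · rw [zero_mul]
        exact hpos
    rw [Finset.sum_mul]
    refine (Finset.sum_le_sum fun m _ => h3 m).trans ?_
    rw [← Finset.mul_sum, ← Finset.mul_sum]
    apply mul_le_mul_of_nonneg_left _ (by positivity)
    apply mul_le_mul_of_nonneg_left _ (by positivity)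
    exact rankin (2 * t) hq0 hdq
  -- the index types
  let κ₂ := {z : Fin d → Fin (2 * t + 1) // sup (fun x => (z x : ℕ)) < s}
  have hκ₂ : (Fintype.card κ₂ : ℝ) * (q : ℝ) ^ 2 ≤ E * (q : ℝ) ^ t := by
    have h3 : (Fintype.card κ₂ : ℝ) * (q : ℝ) ^ 2 = ∑ z : Fin d → Fin (2 * t + 1),
        if sup (fun x => (z x : ℕ)) < s then (q : ℝ) ^ 2 else 0 := by
      rw [← Finset.sum_filter, Finset.sum_const, nsmul_eq_mul, Fintype.card_subtype]
    rw [h3]
    have h4 : ∀ z : Fin d → Fin (2 * t + 1), (if sup (fun x => (z x : ℕ)) < s then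
        (q : ℝ) ^ 2 else 0) ≤ (q : ℝ) ^ t * ((q : ℝ)⁻¹) ^ sup (fun x => (z x : ℕ)) := by
      intro z
      split_ifs with hz
      · set b := sup (fun x => (z x : ℕ)) with hb
        have h5 : (q : ℝ) ^ t = (q : ℝ) ^ (t - b) * (q : ℝ) ^ b := by
          rw [← pow_add]; congr 1; omega
        rw [h5, mul_assoc, ← mul_pow, mul_inv_cancel₀ hq0.ne', one_pow, mul_one]
        exact pow_le_pow_right₀ hqR (by omega)
      · positivity
    refine (Finset.sum_le_sum fun z _ => h4 z).trans ?_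
    rw [← Finset.mul_sum, mul_comm]
    exact mul_le_mul_of_nonneg_right (rankin (2 * t) hq0 hdq) (by positivity)
  have hgam : 0 < gam (2 * t) := by
    have := one_le_gam (even_two_mul t)
    linarith
  set ρ : ℝ := (κ * gam (2 * t))⁻¹ with hρ
  have hρ0 : 0 < ρ := by rw [hρ]; positivity
  let Y : (Ω₁ × Ω₂ × Bool) ⊕ κ₂ → Fin d → ℝ := Sum.elim (fun p => yv ε j r p)
    (fun z x => ((z.1 x : ℕ) : ℝ))
  let c : (Ω₁ × Ω₂ × Bool) ⊕ κ₂ → ℝ := Sum.elim (fun _ => ρ) (fun z => - ρ * W z.1)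
  have hmomY : ∀ m : Fin d → ℕ, ∑ x, m x = 2 * t →
      ∑ i, c i * ∏ x, Y i x ^ m x = (ρ * κ) * ∏ x, gam (m x) := by
    intro m hm
    rw [Fintype.sum_sum_type]
    simp only [c, Y, Sum.elim_inl, Sum.elim_inr]
    have h3 : ∑ z : κ₂, -ρ * W z.1 * ∏ x, ((z.1 x : ℕ) : ℝ) ^ m x = - ρ * D m := by
      rw [← hWm m hm, Finset.mul_sum]
      simp_rw [← mul_assoc]
      refine Fintype.sum_of_injective (fun z : κ₂ => z.1) Subtype.val_injective
        _ _ ?_ (fun i => rfl)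
      intro z hz
      have : s ≤ sup (fun x => (z x : ℕ)) := by
        by_contra h0
        exact hz ⟨⟨z, by omega⟩, rfl⟩
      rw [hW0 z this]; ring
    rw [h3, ← Finset.mul_sum, mul_assoc, ← hD m hm]
    ring
  have hform := moment_form t c Y (ρ * κ) hmomY
  have hmass := mass_ge t c Y (by positivity : 0 ≤ ρ * κ) hmomY
  have hnorm : ∀ i, ‖(WithLp.toLp 2 (Y i) : Eu d)‖ ^ (2 * t) = (∑ x, Y i x ^ 2) ^ t := by
    intro i
    rw [pow_mul, EuclideanSpace.real_norm_sq_eq]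
  have hTpos : 0 < ∑ i, c i * ‖(WithLp.toLp 2 (Y i) : Eu d)‖ ^ (2 * t) := by
    simp_rw [hnorm]
    refine lt_of_lt_of_le ?_ hmass
    positivity
  obtain ⟨N, hN, x, w, hdes, hneg, lam, hlam, hsum, hnegsum⟩ := signed_design hd ht
    (fun i => (WithLp.toLp 2 (Y i) : Eu d)) c (fun i => by simp only [c, Sum.elim_inl]; exact hρ0.le)
    (by
      intro g
      have h3 := hform (WithLp.ofLp g)
      have h4 : ∀ i, inner ℝ (WithLp.toLp 2 (Y i) : Eu d) g = ∑ x, WithLp.ofLp g x * Y i x := by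
        intro i
        rw [PiLp.inner_apply]
        refine Finset.sum_congr rfl fun x _ => ?_
        simp
      simp_rw [h4]
      rw [h3, ← EuclideanSpace.real_norm_sq_eq g, ← pow_mul, hρ]
      field_simp)
    hTpos
  have hdt : (q : ℝ) ^ t ≤ 2 ^ t * (d : ℝ) ^ t := by
    rw [← mul_pow]
    exact pow_le_pow_left₀ hq0.le hqd t
  have hdt0 : (0 : ℝ) ≤ (d : ℝ) ^ t := by positivity
  have hκ₂' : (Fintype.card κ₂ : ℝ) * (q : ℝ) ^ 2 ≤ E * 2 ^ t * (d : ℝ) ^ t := by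
    refine hκ₂.trans ?_
    rw [mul_assoc]
    exact mul_le_mul_of_nonneg_left hdt hE0.le
  refine ⟨N, ?_, x, w, hdes, ?_, ?_⟩
  · -- number of points
    have h3 : (N : ℝ) ≤ 2 * ((Fintype.card (Ω₁ × Ω₂ × Bool) : ℝ) + (Fintype.card κ₂ : ℝ)) := by
      exact_mod_cast hN
    have h4 : (Fintype.card (Ω₁ × Ω₂ × Bool) : ℝ) = 4 * (q : ℝ) ^ t := by
      rw [Fintype.card_prod, Fintype.card_prod, Fintype.card_bool, hN1, ht', pow_succ]
      push_cast
      ring
    have h5 : (Fintype.card κ₂ : ℝ) ≤ (Fintype.card κ₂ : ℝ) * (q : ℝ) ^ 2 := by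
      have : (1 : ℝ) ≤ (q : ℝ) ^ 2 := one_le_pow₀ hqR
      have h0 : (0 : ℝ) ≤ (Fintype.card κ₂ : ℝ) := Nat.cast_nonneg _
      nlinarith
    rw [h4] at h3
    have h6 : 0 ≤ C₃ * (d : ℝ) ^ t := by positivity
    calc (N : ℝ) ≤ 2 * (4 * (q : ℝ) ^ t + (Fintype.card κ₂ : ℝ)) := h3
      _ ≤ 2 * (4 * (2 ^ t * (d : ℝ) ^ t) + E * 2 ^ t * (d : ℝ) ^ t) := by linarith
      _ = C₂ * (d : ℝ) ^ t := by rw [hC₂]; ring
      _ ≤ (C₂ + C₃) * (d : ℝ) ^ t := by linarith
  · -- number of negative weights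
    have h3 : ((univ.filter fun i => w i < 0).card : ℝ) ≤ 2 * (Fintype.card κ₂ : ℝ) := by
      exact_mod_cast hneg
    have h5 : (d : ℝ) ^ 2 ≤ (q : ℝ) ^ 2 := pow_le_pow_left₀ hd0.le hdq 2
    have h0 : (0 : ℝ) ≤ (Fintype.card κ₂ : ℝ) := Nat.cast_nonneg _
    have h6 : 0 ≤ C₃ * (d : ℝ) ^ t := by positivity
    have h7 : 0 ≤ 8 * 2 ^ t * (d : ℝ) ^ t := by positivity
    calc ((univ.filter fun i => w i < 0).card : ℝ) * (d : ℝ) ^ 2
        ≤ (2 * (Fintype.card κ₂ : ℝ)) * (q : ℝ) ^ 2 :=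
          mul_le_mul h3 h5 (by positivity) (by positivity)
      _ = 2 * ((Fintype.card κ₂ : ℝ) * (q : ℝ) ^ 2) := by ring
      _ ≤ 2 * (E * 2 ^ t * (d : ℝ) ^ t) := by linarith
      _ ≤ 2 * (E * 2 ^ t * (d : ℝ) ^ t) + 8 * 2 ^ t * (d : ℝ) ^ t := by linarith
      _ = C₂ * (d : ℝ) ^ t := by rw [hC₂]; ring
      _ ≤ (C₂ + C₃) * (d : ℝ) ^ t := by linarith
  · -- negative mass
    simp_rw [hnorm] at hsum hnegsum
    have hZ : ∑ i : κ₂, |c (Sum.inr i)| * (∑ x, Y (Sum.inr i) x ^ 2) ^ t ≤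
        ρ * (B * ∑ m : Fin d → Fin (2 * t + 1), if ∑ x, (m x : ℕ) = 2 * t then
          |D fun x => m x| else 0) := by
      refine le_trans ?_ (mul_le_mul_of_nonneg_left hWs hρ0.le)
      have h3 : ∀ z : Fin d → Fin (2 * t + 1), (∑ x, ((z x : ℕ) : ℝ) ^ 2) ^ t ≤
          (∑ x, ((z x : ℕ) : ℝ) ^ 2) ^ (2 * t) := by
        intro z
        have h4 : (∑ x, ((z x : ℕ) : ℝ) ^ 2) = ((∑ x, (z x : ℕ) ^ 2 : ℕ) : ℝ) := by push_cast; rfl
        rw [h4]
        rcases Nat.eq_zero_or_pos (∑ x, (z x : ℕ) ^ 2) with h | h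
        · rw [h]; simp [ht']
        · exact pow_le_pow_right₀ (by exact_mod_cast h) (by omega)
      calc ∑ i : κ₂, |c (Sum.inr i)| * (∑ x, Y (Sum.inr i) x ^ 2) ^ t
          = ∑ i : κ₂, ρ * (|W i.1| * (∑ x, ((i.1 x : ℕ) : ℝ) ^ 2) ^ t) := by
            refine Finset.sum_congr rfl fun i _ => ?_
            simp only [c, Y, Sum.elim_inr]
            rw [abs_mul, abs_neg, abs_of_pos hρ0]
            ring
        _ ≤ ∑ i : κ₂, ρ * (|W i.1| * (∑ x, ((i.1 x : ℕ) : ℝ) ^ 2) ^ (2 * t)) := by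
            refine Finset.sum_le_sum fun i _ => ?_
            apply mul_le_mul_of_nonneg_left _ hρ0.le
            exact mul_le_mul_of_nonneg_left (h3 i.1) (abs_nonneg _)
        _ = ρ * ∑ i : κ₂, |W i.1| * (∑ x, ((i.1 x : ℕ) : ℝ) ^ 2) ^ (2 * t) := by
            rw [Finset.mul_sum]
        _ ≤ ρ * ∑ z : Fin d → Fin (2 * t + 1), |W z| * (∑ x, ((z x : ℕ) : ℝ) ^ 2) ^ (2 * t) := by
            apply mul_le_mul_of_nonneg_left _ hρ0.le
            refine le_of_eq ?_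
            refine Fintype.sum_of_injective (fun z : κ₂ => z.1) Subtype.val_injective
              _ _ ?_ (fun i => rfl)
            intro z hz
            have : s ≤ sup (fun x => (z x : ℕ)) := by
              by_contra h0
              exact hz ⟨⟨z, by omega⟩, rfl⟩
            rw [hW0 z this]; simp
    have hdd : (d : ℝ) * Real.sqrt d ≤ q * Real.sqrt q :=
      mul_le_mul hdq (Real.sqrt_le_sqrt hdq) (Real.sqrt_nonneg _) hq0.le
    set S : ℝ := ∑ m : Fin d → Fin (2 * t + 1), if ∑ x, (m x : ℕ) = 2 * t then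
          |D fun x => m x| else 0 with hS
    have hS0 : 0 ≤ S := by
      rw [hS]
      refine Finset.sum_nonneg fun m _ => ?_
      split_ifs
      · exact abs_nonneg _
      · exact le_rfl
    have hneg2 : ∑ i, max (-(w i)) 0 ≤ lam * (ρ * (B * S)) :=
      hnegsum.trans (mul_le_mul_of_nonneg_left hZ hlam.le)
    have h2nq : 2 * n₁ * q ≤ κ := by
      rw [hκ]
      have : 0 ≤ (t : ℝ) * Λ := mul_nonneg ht0 (by linarith)
      apply mul_le_mul_of_nonneg_left _ (by positivity)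
      linarith
    have h8 : 0 ≤ C₂ * ∑ i, w i := by
      rw [hsum]
      have : 0 ≤ ∑ i, c i * (∑ x, Y i x ^ 2) ^ t := le_trans (by positivity) hmass
      positivity
    calc (∑ i, max (-(w i)) 0) * ((d : ℝ) * Real.sqrt d)
        ≤ (lam * (ρ * (B * S))) * (q * Real.sqrt q) :=
          mul_le_mul hneg2 hdd (by positivity) (by positivity)
      _ = lam * ρ * B * (S * (q * Real.sqrt q)) := by ring
      _ ≤ lam * ρ * B * (2 * n₁ * q * C₁ * (q ^ t * E)) :=
          mul_le_mul_of_nonneg_left hsumD (by positivity)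
      _ = lam * ρ * B * C₁ * E * ((2 * n₁ * q) * q ^ t) := by ring
      _ ≤ lam * ρ * B * C₁ * E * (κ * (2 ^ t * (d : ℝ) ^ t)) := by
          apply mul_le_mul_of_nonneg_left _ (by positivity)
          exact mul_le_mul h2nq hdt (by positivity) hκ0.le
      _ = C₃ * (lam * (ρ * κ * (d : ℝ) ^ t)) := by rw [hC₃]; ring
      _ ≤ C₃ * (lam * ∑ i, c i * (∑ x, Y i x ^ 2) ^ t) := by
          apply mul_le_mul_of_nonneg_left _ hC₃0
          exact mul_le_mul_of_nonneg_left hmass hlam.le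
      _ = C₃ * ∑ i, w i := by rw [hsum]
      _ ≤ (C₂ + C₃) * ∑ i, w i := by linarith

end Pool.Agent.A2B65
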