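import Pool.Agent.Lib.MP_a2be38_co_h65.Sparse

/-!
# Designs with unbiased signs need many points
-/

set_option autoImplicit false

open Finset MeasureTheory Metric

namespace Pool.Agent.A2B65

open Pool.Agent.MP_a2be38_co

theorem choose_lower {d s : ℕ} (h : 2 * s ≤ d) :
    ((d : ℝ) / 2) ^ s / (s.factorial : ℝ) ≤ (d.choose s : ℝ) := by
  have h1 := Nat.pow_le_choose (α := ℝ) s d
  refine le_trans ?_ h1
  apply div_le_div_of_nonneg_right _ (by positivity)
  apply pow_le_pow_left₀ (by positivity)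
  have h2 : ((d + 1 - s : ℕ) : ℝ) = (d : ℝ) + 1 - s := by
    rw [Nat.cast_sub (by omega)]; push_cast; ring
  have h3 : 2 * (s : ℝ) ≤ d := by exact_mod_cast h
  rw [h2]
  linarith

/-- many patterns -/
theorem patterns {t : ℕ} (ht : 3 ≤ t) : ∃ κ : ℝ, ∃ d₀ : ℕ, 0 < κ ∧
    ∀ (d N : ℕ) (x : Fin N → Fin d → ℝ) (w : Fin N → ℝ) (c : ℕ → ℝ), Dat t x w c → d₀ ≤ d →
      ∀ P : Finset (Bs d (t / 2) → ℝ), (∀ i, ∑ l, x i l ^ 4 < 48 / d →
        (fun B : Bs d (t / 2) => ∏ l ∈ B.1, x i l ^ 2) ∈ P) →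
      κ * (d : ℝ) ^ (t / 2) ≤ P.card := by
  classical
  generalize hs : t / 2 = s
  rcases Nat.lt_or_ge s 2 with hlt | hge
  · have hs1 : s = 1 := by omega
    subst hs1
    refine ⟨1 / 2, 0, by norm_num, fun d N x w c h _ P hP => ?_⟩
    have h1 := h.dim_bound (s := 1) (by omega) (univ.filter fun i => ∑ l, x i l ^ 4 < 48 / d) P
      (fun i hi => hP i (Finset.mem_filter.mp hi).2)
    have h2 := h1.trans (h.sparse_one ht)
    have hc := h.c_pos 2 (by omega)
    rw [Nat.choose_one_right, pow_one, mul_one] at h2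
    have h3 : c 2 * (((d : ℝ) - P.card) * 2) ≤ c 2 * d := by linarith
    have h4 := le_of_mul_le_mul_left h3 hc
    rw [pow_one]
    linarith
  · have hst : 2 * s ≤ t := by omega
    set C₃ : ℝ := 2 * (((4 * s).factorial : ℝ) * s ^ 2 +
      2 * s * 3 ^ s * (1 + 2 * t) ^ (2 * s)) with hC₃
    have hC₃0 : 0 ≤ C₃ := by rw [hC₃]; positivity
    set κ : ℝ := (2 * (2 ^ s * (s.factorial : ℝ)))⁻¹ with hκ
    have hfac : (0 : ℝ) < (s.factorial : ℝ) := by exact_mod_cast Nat.factorial_pos s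
    have hκ0 : 0 < κ := by rw [hκ]; positivity
    obtain ⟨d₁, hd₁⟩ := exists_nat_ge (C₃ / κ)
    refine ⟨κ, max (2 * s) d₁, hκ0, fun d N x w c h hd P hP => ?_⟩
    have hd2 : 2 * s ≤ d := (le_max_left _ _).trans hd
    have hdR : C₃ / κ ≤ d := hd₁.trans (by exact_mod_cast (le_max_right _ _).trans hd)
    have h1 := h.dim_bound (s := s) hst (univ.filter fun i => ∑ l, x i l ^ 4 < 48 / d) P
      (fun i hi => hP i (Finset.mem_filter.mp hi).2)
    have h2 := h1.trans (h.sparse_two hge hst)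
    rw [← hC₃] at h2
    have hc := h.c_pos _ hst
    have h3 : c (2 * s) * (((d.choose s : ℝ) - P.card) * 2 ^ s) ≤
        c (2 * s) * (C₃ * (d : ℝ) ^ (s - 1)) := by linarith
    have h4 := le_of_mul_le_mul_left h3 hc
    by_contra hcon
    push Not at hcon
    have h5 := choose_lower hd2
    have h6 : ((d : ℝ) / 2) ^ s / (s.factorial : ℝ) = 2 * κ * (d : ℝ) ^ s := by
      rw [hκ, div_pow]
      field_simp
    rw [h6] at h5
    have h7 : κ * (d : ℝ) ^ s < (d.choose s : ℝ) - P.card := by linarith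
    have h8 : (1 : ℝ) ≤ 2 ^ s := one_le_pow₀ (by norm_num)
    have h9 : 0 ≤ κ * (d : ℝ) ^ s := by positivity
    have h10 : κ * (d : ℝ) ^ s < C₃ * (d : ℝ) ^ (s - 1) := by nlinarith
    have h11 : (d : ℝ) ^ s = d * (d : ℝ) ^ (s - 1) := by
      rw [← pow_succ']; congr 1; omega
    rw [h11] at h10
    rw [div_le_iff₀ hκ0] at hdR
    have h12 : (0 : ℝ) ≤ (d : ℝ) ^ (s - 1) := by positivity
    have h13 := mul_le_mul_of_nonneg_right hdR h12
    linarith

section

variable {d N : ℕ}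

/-- the number of points with given absolute values -/
theorem rao (x : Fin N → Fin d → ℝ) (w : Fin N → ℝ) (hw : ∀ i, 0 < w i) (k : ℕ) (i₀ : Fin N)
    (hun : ∀ A : Finset (Fin d), A.Nonempty → A.card ≤ 2 * k →
      ∑ i ∈ univ.filter (fun i => ∀ l, |x i l| = |x i₀ l|), w i * ∏ l ∈ A, x i l = 0) :
    (univ.filter fun l => x i₀ l ≠ 0).card.choose k ≤
      (univ.filter (fun i => ∀ l, |x i l| = |x i₀ l|)).card := by
  classical
  set S := univ.filter fun l => x i₀ l ≠ 0 with hS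
  set I := univ.filter (fun i => ∀ l, |x i l| = |x i₀ l|) with hI
  let u : {A // A ∈ S.powersetCard k} → (I → ℝ) := fun A i => ∏ l ∈ A.1, x i.1 l
  have hsq : ∀ i ∈ I, ∀ l, x i l ^ 2 = x i₀ l ^ 2 := by
    intro i hi l
    have h1 := (Finset.mem_filter.mp hi).2 l
    rw [← sq_abs, h1, sq_abs]
  have hli : LinearIndependent ℝ u := by
    rw [linearIndependent_iff']
    intro T g hg A₀ hA₀
    have h1 : ∀ i : I, ∑ A ∈ T, g A * ∏ l ∈ A.1, x i.1 l = 0 := by
      intro i
      have := congrFun hg i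
      simpa [u] using this
    have h2 : ∑ i : I, w i.1 * ((∏ l ∈ A₀.1, x i.1 l) * ∑ A ∈ T, g A * ∏ l ∈ A.1, x i.1 l) = 0 := by
      apply Finset.sum_eq_zero
      intro i _
      rw [h1 i]; ring
    have h3 : ∑ i : I, w i.1 * ((∏ l ∈ A₀.1, x i.1 l) * ∑ A ∈ T, g A * ∏ l ∈ A.1, x i.1 l) =
        ∑ A ∈ T, g A * ∑ i ∈ I, w i * ((∏ l ∈ A₀.1, x i l) * ∏ l ∈ A.1, x i l) := by
      refine (Finset.sum_coe_sort I fun i => w i * ((∏ l ∈ A₀.1, x i l) *
        ∑ A ∈ T, g A * ∏ l ∈ A.1, x i l)).trans ?_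
      simp_rw [Finset.mul_sum]
      rw [Finset.sum_comm]
      refine Finset.sum_congr rfl fun A _ => Finset.sum_congr rfl fun i _ => ?_
      ring
    rw [h3] at h2
    have h4 : ∀ A ∈ T, A ≠ A₀ →
        g A * ∑ i ∈ I, w i * ((∏ l ∈ A₀.1, x i l) * ∏ l ∈ A.1, x i l) = 0 := by
      intro A _ hne
      have hcA := (Finset.mem_powersetCard.mp A.2).2
      have hcA₀ := (Finset.mem_powersetCard.mp A₀.2).2
      have h5 : ∀ i ∈ I, w i * ((∏ l ∈ A₀.1, x i l) * ∏ l ∈ A.1, x i l) =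
          (∏ l ∈ A₀.1 ∩ A.1, x i₀ l ^ 2) * (w i * ∏ l ∈ (A₀.1 \ A.1) ∪ (A.1 \ A₀.1), x i l) := by
        intro i hi
        rw [← Finset.prod_inter_mul_prod_sdiff A₀.1 A.1, ← Finset.prod_inter_mul_prod_sdiff A.1 A₀.1,
          Finset.prod_union (Finset.disjoint_left.mpr fun l h1 h2 =>
            (Finset.mem_sdiff.mp h1).2 (Finset.mem_sdiff.mp h2).1), Finset.inter_comm A.1 A₀.1]
        have h6 : ∏ l ∈ A₀.1 ∩ A.1, x i₀ l ^ 2 = (∏ l ∈ A₀.1 ∩ A.1, x i l) ^ 2 := by
          rw [← Finset.prod_pow]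
          exact Finset.prod_congr rfl fun l _ => (hsq i hi l).symm
        rw [h6]
        ring
      rw [Finset.sum_congr rfl h5, ← Finset.mul_sum, hun, mul_zero, mul_zero]
      · by_contra hemp
        rw [Finset.not_nonempty_iff_eq_empty, Finset.union_eq_empty, Finset.sdiff_eq_empty_iff_subset,
          Finset.sdiff_eq_empty_iff_subset] at hemp
        exact hne (Subtype.ext (Finset.Subset.antisymm hemp.2 hemp.1))
      · calc ((A₀.1 \ A.1) ∪ (A.1 \ A₀.1)).card ≤ (A₀.1 \ A.1).card + (A.1 \ A₀.1).card :=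
              Finset.card_union_le _ _
          _ ≤ A₀.1.card + A.1.card :=
              Nat.add_le_add (Finset.card_le_card Finset.sdiff_subset)
                (Finset.card_le_card Finset.sdiff_subset)
          _ = 2 * k := by rw [hcA, hcA₀]; ring
    rw [Finset.sum_eq_single_of_mem A₀ hA₀ h4] at h2
    have h5 : 0 < ∑ i ∈ I, w i * ((∏ l ∈ A₀.1, x i l) * ∏ l ∈ A₀.1, x i l) := by
      have h6 : ∀ i ∈ I, w i * ((∏ l ∈ A₀.1, x i l) * ∏ l ∈ A₀.1, x i l) =
          w i * ∏ l ∈ A₀.1, x i₀ l ^ 2 := by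
        intro i hi
        congr 1
        rw [← Finset.prod_mul_distrib]
        exact Finset.prod_congr rfl fun l _ => by rw [← hsq i hi l]; ring
      rw [Finset.sum_congr rfl h6]
      apply Finset.sum_pos
      · intro i _
        have h7 : 0 < ∏ l ∈ A₀.1, x i₀ l ^ 2 := by
          apply Finset.prod_pos
          intro l hl
          have h8 := (Finset.mem_powersetCard.mp A₀.2).1 hl
          have h9 := (Finset.mem_filter.mp h8).2
          positivity
        exact mul_pos (hw i) h7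
      · exact ⟨i₀, Finset.mem_filter.mpr ⟨Finset.mem_univ _, fun l => rfl⟩⟩
    exact (mul_eq_zero.mp h2).resolve_right h5.ne'
  have h1 := hli.fintype_card_le_finrank
  rw [Module.finrank_fintype_fun_eq_card, Fintype.card_coe, Fintype.card_coe,
    Finset.card_powersetCard] at h1
  exact h1

end

/-- designs with unbiased signs need many points -/
theorem barrier {t : ℕ} (ht : 3 ≤ t) (k : ℕ) : ∃ κ : ℝ, 0 < κ ∧ ∀ d : ℕ, 1 ≤ d →
    ∀ (N : ℕ) (x : Fin N → Sp d) (w : Fin N → ℝ), (∀ i, 0 < w i) →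
      (∀ p : MvPolynomial (Fin d) ℝ, p.totalDegree ≤ 2 * t →
        ∑ i, w i * MvPolynomial.eval (fun j => WithLp.ofLp (x i : Eu d) j) p
          = ∫ y, MvPolynomial.eval (fun j => WithLp.ofLp (y : Eu d) j) p ∂(mu d)) →
      (∀ i₀ : Fin N, ∀ A : Finset (Fin d), A.Nonempty → A.card ≤ 2 * k →
        ∑ i ∈ univ.filter (fun i => ∀ l, |WithLp.ofLp (x i : Eu d) l| =
          |WithLp.ofLp (x i₀ : Eu d) l|), w i * ∏ l ∈ A, WithLp.ofLp (x i : Eu d) l = 0) →
      κ * (d : ℝ) ^ (k + t / 2) ≤ N := by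
  classical
  obtain ⟨κ, d₀, hκ, hpat⟩ := patterns ht
  set s := t / 2 with hs
  set c' : ℝ := κ * ((96 : ℝ) ^ k * (k.factorial : ℝ))⁻¹ with hc'
  have hc'0 : 0 < c' := by
    have : (0 : ℝ) < (k.factorial : ℝ) := by exact_mod_cast Nat.factorial_pos k
    rw [hc']; positivity
  set d₁ : ℕ := max d₀ (96 * k) + 1 with hd₁
  refine ⟨min c' ((d₁ : ℝ) ^ (k + s))⁻¹, lt_min hc'0 (by positivity), ?_⟩
  intro d hd N x w hw hdes hun
  have hd0 : (0 : ℝ) < d := by exact_mod_cast hd
  let X : Fin N → Fin d → ℝ := fun i l => WithLp.ofLp (x i : Eu d) l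
  have hM : 0 < ∑ i, w i := by
    have h1 := hdes 1 (by simp)
    simp only [map_one, mul_one] at h1
    rw [h1, integral_const]
    simpa using mu_univ_pos hd
  obtain ⟨c, hc0, hcs, hcm⟩ := exists_moments hd x w hdes
  have hX1 : ∀ i, ∑ l, X i l ^ 2 = 1 := by
    intro i
    have h := (x i).2
    rw [mem_sphere_zero_iff_norm] at h
    have h2 := EuclideanSpace.real_norm_sq_eq (x i : Eu d)
    rw [h] at h2
    simp only [X]
    rw [← h2]; norm_num
  have hDat : Dat t X w c := ⟨hd, hw, hX1, hM, hc0, hcs, hcm⟩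
  rcases Nat.lt_or_ge d d₁ with hlt | hge
  · -- small dimensions
    have hN : 1 ≤ N := by
      rcases Nat.eq_zero_or_pos N with rfl | h
      · simp at hM
      · exact h
    have h1 : (d : ℝ) ^ (k + s) ≤ (d₁ : ℝ) ^ (k + s) :=
      pow_le_pow_left₀ hd0.le (by exact_mod_cast hlt.le) _
    have h2 : (0 : ℝ) < (d₁ : ℝ) ^ (k + s) := by positivity
    calc min c' ((d₁ : ℝ) ^ (k + s))⁻¹ * (d : ℝ) ^ (k + s)
        ≤ ((d₁ : ℝ) ^ (k + s))⁻¹ * (d₁ : ℝ) ^ (k + s) :=
          mul_le_mul (min_le_right _ _) h1 (by positivity) (by positivity)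
      _ = 1 := inv_mul_cancel₀ h2.ne'
      _ ≤ N := by exact_mod_cast hN
  · -- large dimensions
    have hdd₀ : d₀ ≤ d := by omega
    have hdk : 96 * k ≤ d := by omega
    let π : Fin N → Fin d → ℝ := fun i l => |X i l|
    let Dn : Finset (Fin N) := univ.filter fun i => ∑ l, X i l ^ 4 < 48 / d
    let Pd : Finset (Fin d → ℝ) := Dn.image π
    let P : Finset (Bs d s → ℝ) := Pd.image fun a B => ∏ l ∈ B.1, a l ^ 2
    have hP : κ * (d : ℝ) ^ s ≤ P.card := by
      refine hpat d N X w c hDat hdd₀ P ?_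
      intro i hi
      rw [Finset.mem_image]
      refine ⟨π i, Finset.mem_image_of_mem _ (Finset.mem_filter.mpr ⟨Finset.mem_univ i, hi⟩), ?_⟩
      funext B
      refine Finset.prod_congr rfl fun l _ => ?_
      simp only [π]
      rw [sq_abs]
    have hPd : κ * (d : ℝ) ^ s ≤ Pd.card := by
      refine hP.trans ?_
      exact_mod_cast Finset.card_image_le
    have hfib : ∀ a ∈ Pd, ((96 : ℝ) ^ k * (k.factorial : ℝ))⁻¹ * (d : ℝ) ^ k ≤
        ((univ.filter fun i => π i = a).card : ℝ) := by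
      intro a ha
      obtain ⟨i₀, hi₀, rfl⟩ := Finset.mem_image.mp ha
      have hi₀' := (Finset.mem_filter.mp hi₀).2
      have h1 := rao X w hw k i₀ (hun i₀)
      have h2 : (univ.filter fun i => π i = π i₀) =
          univ.filter (fun i => ∀ l, |X i l| = |X i₀ l|) := by
        ext i
        rw [Finset.mem_filter, Finset.mem_filter]
        exact and_congr_right fun _ => funext_iff
      rw [h2]
      set S := univ.filter fun l => X i₀ l ≠ 0 with hS
      -- the support is large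
      have h3 : (1 : ℝ) ≤ S.card * ∑ l, X i₀ l ^ 4 := by
        have h4 : ∑ l ∈ S, X i₀ l ^ 2 = 1 := by
          rw [← hX1 i₀, hS, Finset.sum_filter]
          refine Finset.sum_congr rfl fun l _ => ?_
          split_ifs with h5
          · rfl
          · push Not at h5
            rw [h5]; simp
        have h5 := Finset.sum_mul_sq_le_sq_mul_sq S (fun _ => (1 : ℝ)) (fun l => X i₀ l ^ 2)
        simp only [one_mul, one_pow, Finset.sum_const, nsmul_eq_mul, mul_one] at h5
        rw [h4, one_pow] at h5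
        refine h5.trans ?_
        apply mul_le_mul_of_nonneg_left _ (Nat.cast_nonneg _)
        calc ∑ l ∈ S, (X i₀ l ^ 2) ^ 2 = ∑ l ∈ S, X i₀ l ^ 4 :=
              Finset.sum_congr rfl fun l _ => by ring
          _ ≤ ∑ l, X i₀ l ^ 4 := by
              apply Finset.sum_le_sum_of_subset_of_nonneg (Finset.subset_univ _)
              intro l _ _
              positivity
      have h4 : (d : ℝ) ≤ 48 * S.card := by
        have h5 : (0 : ℝ) ≤ S.card := Nat.cast_nonneg _
        have h6 : (S.card : ℝ) * ∑ l, X i₀ l ^ 4 ≤ S.card * (48 / d) :=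
          mul_le_mul_of_nonneg_left hi₀'.le h5
        have h7 : (1 : ℝ) ≤ S.card * (48 / d) := h3.trans h6
        rw [← mul_div_assoc, le_div_iff₀ hd0] at h7
        linarith
      have hkd : 96 * (k : ℝ) ≤ d := by exact_mod_cast hdk
      have h5 := Nat.pow_le_choose (α := ℝ) k S.card
      have h6 : (S.card.choose k : ℝ) ≤
          ((univ.filter (fun i => ∀ l, |X i l| = |X i₀ l|)).card : ℝ) := by exact_mod_cast h1
      refine le_trans ?_ h6
      refine le_trans ?_ h5
      have hkS : k ≤ S.card := by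
        have : (k : ℝ) ≤ S.card := by linarith
        exact_mod_cast this
      have h7 : (d : ℝ) / 96 ≤ ((S.card + 1 - k : ℕ) : ℝ) := by
        rw [Nat.cast_sub (by omega)]
        push_cast
        linarith
      have h8 : ((96 : ℝ) ^ k * (k.factorial : ℝ))⁻¹ * (d : ℝ) ^ k =
          ((d : ℝ) / 96) ^ k / (k.factorial : ℝ) := by
        rw [div_pow]
        field_simp
      rw [h8]
      apply div_le_div_of_nonneg_right _ (by positivity)
      exact pow_le_pow_left₀ (by positivity) h7 k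
    have hcount : ∑ a ∈ Pd, (univ.filter fun i => π i = a).card ≤ N := by
      rw [Finset.sum_card_fiberwise_eq_card_filter]
      refine (Finset.card_filter_le _ _).trans ?_
      simp
    have hk0 : (0 : ℝ) < (k.factorial : ℝ) := by exact_mod_cast Nat.factorial_pos k
    calc min c' ((d₁ : ℝ) ^ (k + s))⁻¹ * (d : ℝ) ^ (k + s) ≤ c' * (d : ℝ) ^ (k + s) :=
          mul_le_mul_of_nonneg_right (min_le_left _ _) (by positivity)
      _ = (κ * (d : ℝ) ^ s) * (((96 : ℝ) ^ k * (k.factorial : ℝ))⁻¹ * (d : ℝ) ^ k) := by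
          rw [hc', pow_add]; ring
      _ ≤ Pd.card * (((96 : ℝ) ^ k * (k.factorial : ℝ))⁻¹ * (d : ℝ) ^ k) :=
          mul_le_mul_of_nonneg_right hPd (by positivity)
      _ = ∑ a ∈ Pd, ((96 : ℝ) ^ k * (k.factorial : ℝ))⁻¹ * (d : ℝ) ^ k := by
          rw [Finset.sum_const, nsmul_eq_mul]
      _ ≤ ∑ a ∈ Pd, ((univ.filter fun i => π i = a).card : ℝ) :=
          Finset.sum_le_sum fun a ha => hfib a ha
      _ ≤ N := by exact_mod_cast hcount

end Pool.Agent.A2B65
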