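import Pool.Agent.Lib.MP_a2be38_co.Design

/-!
# Gaussian moments and signed designs
-/

set_option autoImplicit false

open Finset MeasureTheory Metric

namespace Pool.Agent.A2B65

open Pool.Agent.MP_a2be38_co

/-- moments of the standard normal law -/
noncomputable def gam (n : ℕ) : ℝ := if Even n then ((Nat.doubleFactorial (n - 1) : ℕ) : ℝ) else 0

theorem gam_zero : gam 0 = 1 := by simp [gam]

theorem gam_two : gam 2 = 1 := by simp [gam]

theorem gam_four : gam 4 = 3 := by
  rw [gam, if_pos (by decide)]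
  simp [Nat.doubleFactorial]

theorem gam_nonneg (n : ℕ) : 0 ≤ gam n := by
  unfold gam
  split_ifs
  · positivity
  · exact le_rfl

theorem one_le_gam {n : ℕ} (h : Even n) : 1 ≤ gam n := by
  rw [gam, if_pos h]
  exact_mod_cast Nat.doubleFactorial_pos _

theorem gam_odd {n : ℕ} (h : ¬ Even n) : gam n = 0 := by rw [gam, if_neg h]

theorem fac_two (k : ℕ) : ((2 * k).factorial : ℝ) = 2 ^ k * (k.factorial : ℝ) * gam (2 * k) := by
  rw [gam, if_pos (even_two_mul k)]
  rcases Nat.eq_zero_or_pos k with rfl | hk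
  · simp
  · obtain ⟨m, rfl⟩ := Nat.exists_eq_succ_of_ne_zero hk.ne'
    have h1 := Nat.factorial_eq_mul_doubleFactorial (2 * m + 1)
    have h2 := Nat.doubleFactorial_two_mul (m + 1)
    have e1 : 2 * m + 1 + 1 = 2 * (m + 1) := by ring
    rw [e1, h2] at h1
    have e2 : 2 * (m.succ) - 1 = 2 * m + 1 := by omega
    rw [e2, Nat.succ_eq_add_one, h1]
    push_cast
    ring

/-- multinomial coefficients of even exponents -/
theorem multinomial_two {d : ℕ} (k : Fin d → ℕ) :
    (Nat.multinomial univ (fun x => 2 * k x) : ℝ) * ∏ x, gam (2 * k x) =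
      gam (2 * ∑ x, k x) * (Nat.multinomial univ k : ℝ) := by
  set t := ∑ x, k x with ht
  have h1 := Nat.multinomial_spec univ (fun x => 2 * k x)
  have h2 := Nat.multinomial_spec univ k
  have h3 : ∑ x, 2 * k x = 2 * t := by rw [ht, Finset.mul_sum]
  rw [h3] at h1
  rw [← ht] at h2
  have h1' : (∏ x, ((2 * k x).factorial : ℝ)) * (Nat.multinomial univ (fun x => 2 * k x) : ℝ) =
      ((2 * t).factorial : ℝ) := by
    rw [← h1]; push_cast; ring
  have h2' : (∏ x, ((k x).factorial : ℝ)) * (Nat.multinomial univ k : ℝ) = (t.factorial : ℝ) := by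
    rw [← h2]; push_cast; ring
  simp_rw [fac_two] at h1'
  rw [Finset.prod_mul_distrib, Finset.prod_mul_distrib, Finset.prod_pow_eq_pow_sum, ← ht,
    ← h2'] at h1'
  have h4 : (∏ x, ((k x).factorial : ℝ)) ≠ 0 := Finset.prod_ne_zero_iff.mpr fun i _ => by
      exact_mod_cast Nat.factorial_ne_zero _
  have h5 : (2 : ℝ) ^ t ≠ 0 := by positivity
  have h6 : (2 ^ t * ∏ x, ((k x).factorial : ℝ)) *
      ((Nat.multinomial univ (fun x => 2 * k x) : ℝ) * ∏ x, gam (2 * k x)) =
      (2 ^ t * ∏ x, ((k x).factorial : ℝ)) *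
      (gam (2 * t) * (Nat.multinomial univ k : ℝ)) := by
    linear_combination h1'
  exact mul_left_cancel₀ (mul_ne_zero h5 h4) h6

/-- the Gaussian moment form -/
theorem gauss_id {d : ℕ} (t : ℕ) (g : Fin d → ℝ) :
    ∑ m ∈ piAntidiag (univ : Finset (Fin d)) (2 * t), (Nat.multinomial univ m : ℝ) *
      (∏ x, g x ^ m x) * ∏ x, gam (m x) = gam (2 * t) * (∑ x, g x ^ 2) ^ t := by
  classical
  rw [← Finset.sum_filter_add_sum_filter_not _ (fun m => ∀ x, Even (m x))]
  have h0 : ∑ m ∈ (piAntidiag (univ : Finset (Fin d)) (2 * t)).filter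
      (fun m => ¬ ∀ x, Even (m x)), (Nat.multinomial univ m : ℝ) *
      (∏ x, g x ^ m x) * ∏ x, gam (m x) = 0 := by
    apply Finset.sum_eq_zero
    intro m hm
    have h1 := (Finset.mem_filter.mp hm).2
    push Not at h1
    obtain ⟨x, hx⟩ := h1
    have h2 : ∏ x, gam (m x) = 0 := Finset.prod_eq_zero (Finset.mem_univ x) (gam_odd hx)
    rw [h2, mul_zero]
  rw [h0, add_zero, Finset.sum_pow_eq_sum_piAntidiag, Finset.mul_sum]
  refine Finset.sum_nbij' (fun m x => m x / 2) (fun k x => 2 * k x) ?_ ?_ ?_ ?_ ?_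
  · intro m hm
    rw [Finset.mem_filter, mem_piAntidiag] at hm
    obtain ⟨⟨h1, _⟩, h2⟩ := hm
    rw [mem_piAntidiag]
    refine ⟨?_, fun i _ => Finset.mem_univ i⟩
    have h3 : ∀ x, 2 * (m x / 2) = m x := fun x => Nat.two_mul_div_two_of_even (h2 x)
    have h4 : 2 * ∑ x, m x / 2 = 2 * t := by
      rw [Finset.mul_sum, ← h1]
      exact Finset.sum_congr rfl fun x _ => h3 x
    omega
  · intro k hk
    rw [mem_piAntidiag] at hk
    rw [Finset.mem_filter, mem_piAntidiag]
    refine ⟨⟨?_, fun i _ => Finset.mem_univ i⟩, fun x => even_two_mul _⟩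
    rw [← Finset.mul_sum, hk.1]
  · intro m hm
    rw [Finset.mem_filter] at hm
    funext x
    exact Nat.two_mul_div_two_of_even (hm.2 x)
  · intro k _
    funext x
    simp
  · intro m hm
    rw [Finset.mem_filter, mem_piAntidiag] at hm
    obtain ⟨⟨h1, _⟩, h2⟩ := hm
    have h3 : (fun x => 2 * (m x / 2)) = m := by
      funext x; exact Nat.two_mul_div_two_of_even (h2 x)
    have h4 := multinomial_two (fun x => m x / 2)
    rw [h3] at h4
    have h5 : 2 * ∑ x, m x / 2 = 2 * t := by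
      rw [Finset.mul_sum, ← h1]
      exact Finset.sum_congr rfl fun x _ => congrFun h3 x
    have h6 : ∏ x, gam (2 * (m x / 2)) = ∏ x, gam (m x) :=
      Finset.prod_congr rfl fun x _ => by rw [congrFun h3 x]
    rw [h5, h6] at h4
    have h7 : ∏ x, (g x ^ 2) ^ (m x / 2) = ∏ x, g x ^ m x :=
      Finset.prod_congr rfl fun x _ => by rw [← pow_mul, congrFun h3 x]
    rw [h7]
    calc (Nat.multinomial univ m : ℝ) * (∏ x, g x ^ m x) * ∏ x, gam (m x)
        = ((Nat.multinomial univ m : ℝ) * ∏ x, gam (m x)) * ∏ x, g x ^ m x := by ring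
      _ = _ := by rw [h4]; ring

section

variable {d : ℕ} {I : Type} [Fintype I]

/-- from moments to powers of linear forms -/
theorem moment_form (t : ℕ) (c : I → ℝ) (y : I → Fin d → ℝ) (κ : ℝ)
    (h : ∀ m : Fin d → ℕ, ∑ x, m x = 2 * t → ∑ i, c i * ∏ x, y i x ^ m x = κ * ∏ x, gam (m x))
    (g : Fin d → ℝ) :
    ∑ i, c i * (∑ x, g x * y i x) ^ (2 * t) = κ * (gam (2 * t) * (∑ x, g x ^ 2) ^ t) := by
  rw [← gauss_id, Finset.mul_sum]
  simp_rw [Finset.sum_pow_eq_sum_piAntidiag, Finset.mul_sum]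
  rw [Finset.sum_comm]
  refine Finset.sum_congr rfl fun m hm => ?_
  have h1 := h m (mem_piAntidiag.mp hm).1
  calc ∑ i, c i * ((Nat.multinomial univ m : ℝ) * ∏ x, (g x * y i x) ^ m x)
      = (Nat.multinomial univ m : ℝ) * (∏ x, g x ^ m x) * ∑ i, c i * ∏ x, y i x ^ m x := by
        rw [Finset.mul_sum]
        refine Finset.sum_congr rfl fun i _ => ?_
        simp_rw [mul_pow]
        rw [Finset.prod_mul_distrib]
        ring
    _ = _ := by rw [h1]; ring

/-- the total mass -/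
theorem mass_ge (t : ℕ) (c : I → ℝ) (y : I → Fin d → ℝ) {κ : ℝ} (hκ : 0 ≤ κ)
    (h : ∀ m : Fin d → ℕ, ∑ x, m x = 2 * t → ∑ i, c i * ∏ x, y i x ^ m x = κ * ∏ x, gam (m x)) :
    κ * (d : ℝ) ^ t ≤ ∑ i, c i * (∑ x, y i x ^ 2) ^ t := by
  simp_rw [Finset.sum_pow_eq_sum_piAntidiag, Finset.mul_sum]
  rw [Finset.sum_comm]
  have h0 : (d : ℝ) ^ t = ∑ k ∈ piAntidiag (univ : Finset (Fin d)) t,
      (Nat.multinomial univ k : ℝ) := by
    have := Finset.sum_pow_eq_sum_piAntidiag (univ : Finset (Fin d)) (fun _ => (1 : ℝ)) t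
    simpa using this
  rw [h0, Finset.mul_sum]
  refine Finset.sum_le_sum fun k hk => ?_
  have hk1 := (mem_piAntidiag.mp hk).1
  have h1 := h (fun x => 2 * k x) (by rw [← Finset.mul_sum, hk1])
  have h2 : 1 ≤ ∏ x, gam (2 * k x) := by
    have : ∏ x : Fin d, (1 : ℝ) ≤ ∏ x, gam (2 * k x) :=
      Finset.prod_le_prod (fun _ _ => zero_le_one) fun x _ => one_le_gam (even_two_mul _)
    simpa using this
  have h3 : ∑ i, c i * ((Nat.multinomial univ k : ℝ) * ∏ x, (y i x ^ 2) ^ k x) =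
      (Nat.multinomial univ k : ℝ) * (κ * ∏ x, gam (2 * k x)) := by
    rw [← h1, Finset.mul_sum]
    refine Finset.sum_congr rfl fun i _ => ?_
    simp_rw [← pow_mul]
    ring
  rw [h3]
  have h4 : (0 : ℝ) ≤ (Nat.multinomial univ k : ℝ) := Nat.cast_nonneg _
  calc κ * (Nat.multinomial univ k : ℝ) = (Nat.multinomial univ k : ℝ) * (κ * 1) := by ring
    _ ≤ _ := mul_le_mul_of_nonneg_left (mul_le_mul_of_nonneg_left h2 hκ) h4

end

/-- signed designs from moment identities, with control of the negative part -/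
theorem signed_design {d : ℕ} (hd : 1 ≤ d) {t : ℕ} (ht : 1 ≤ t) {κ₁ κ₂ : Type} [Fintype κ₁]
    [Fintype κ₂] (y : κ₁ ⊕ κ₂ → Eu d) (c : κ₁ ⊕ κ₂ → ℝ) (hc : ∀ i, 0 ≤ c (Sum.inl i))
    (h : ∀ g : Eu d, ∑ i, c i * (inner ℝ (y i) g) ^ (2 * t) = ‖g‖ ^ (2 * t))
    (hT : 0 < ∑ i, c i * ‖y i‖ ^ (2 * t)) :
    ∃ N : ℕ, N ≤ 2 * (Fintype.card κ₁ + Fintype.card κ₂) ∧ ∃ x : Fin N → Sp d, ∃ w : Fin N → ℝ,
      (∀ p : MvPolynomial (Fin d) ℝ, p.totalDegree ≤ 2 * t + 1 →
        ∑ i, w i * MvPolynomial.eval (fun j => WithLp.ofLp (x i : Eu d) j) p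
          = ∫ y, MvPolynomial.eval (fun j => WithLp.ofLp (y : Eu d) j) p ∂(mu d)) ∧
      (univ.filter fun i => w i < 0).card ≤ 2 * Fintype.card κ₂ ∧
      ∃ lam : ℝ, 0 < lam ∧ ∑ i, w i = lam * ∑ i, c i * ‖y i‖ ^ (2 * t) ∧
        ∑ i, max (-(w i)) 0 ≤ lam * ∑ i, |c (Sum.inr i)| * ‖y (Sum.inr i)‖ ^ (2 * t) := by
  classical
  obtain ⟨lam, hl⟩ := exists_lambda hd t ht
  have hmass : (mu d).real Set.univ = lam * ∑ i, c i * ‖y i‖ ^ (2 * t) := by
    have h2 : ∫ x, (∑ i, c i * (inner ℝ (y i) (x : Eu d)) ^ (2 * t)) ∂(mu d) =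
        (mu d).real Set.univ := by
      have : ∀ x : Sp d, ∑ i, c i * (inner ℝ (y i) (x : Eu d)) ^ (2 * t) = 1 := by
        intro x
        rw [h]
        have := x.2
        rw [mem_sphere_zero_iff_norm] at this
        rw [this, one_pow]
      simp_rw [this]
      rw [integral_const]; simp
    rw [← h2, integral_finsetSum]
    · simp_rw [integral_const_mul, real_inner_comm, hl]
      rw [Finset.mul_sum]
      apply Finset.sum_congr rfl
      intro i _
      ring
    · intro i _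
      apply integrable_cont
      fun_prop
  have hlam : 0 < lam := by
    have h3 := mu_univ_pos hd
    rw [hmass] at h3
    by_contra hneg
    push Not at hneg
    have := mul_nonpos_of_nonpos_of_nonneg hneg hT.le
    linarith
  let κ := κ₁ ⊕ κ₂
  let ι := {i : κ // y i ≠ 0} × Bool
  let sg : Bool → ℝ := fun b => if b then 1 else -1
  have hsg : ∀ b, |sg b| = 1 := by intro b; cases b <;> simp [sg]
  have hsg2 : ∀ b, (sg b) ^ (2 * t) = 1 := by
    intro b; rw [pow_mul]; cases b <;> simp [sg]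
  let x : ι → Sp d := fun i => ⟨sg i.2 • ‖y i.1.1‖⁻¹ • y i.1.1, by
    rw [mem_sphere_zero_iff_norm, norm_smul, norm_smul, Real.norm_eq_abs, hsg, norm_inv, norm_norm,
      one_mul, inv_mul_cancel₀ (norm_ne_zero_iff.2 i.1.2)]⟩
  let w : ι → ℝ := fun i => lam * c i.1.1 * ‖y i.1.1‖ ^ (2 * t) / 2
  have hmom : ∀ g : Eu d, ∑ i, w i * (inner ℝ (x i : Eu d) g) ^ (2 * t) =
      ∫ z, (inner ℝ (z : Eu d) g) ^ (2 * t) ∂(mu d) := by
    intro g
    rw [hl, ← h g, Finset.mul_sum]
    have e1 : ∀ i : ι, w i * (inner ℝ (x i : Eu d) g) ^ (2 * t) =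
        lam * (c i.1.1 * (inner ℝ (y i.1.1) g) ^ (2 * t)) / 2 := by
      rintro ⟨⟨i, hi⟩, b⟩
      have hn : ‖y i‖ ≠ 0 := norm_ne_zero_iff.2 hi
      simp only [w, x]
      rw [real_inner_smul_left, real_inner_smul_left, mul_pow, mul_pow, hsg2, one_mul, inv_pow]
      have : ‖y i‖ ^ (2 * t) ≠ 0 := pow_ne_zero _ hn
      field_simp
    simp_rw [e1]
    rw [Fintype.sum_prod_type]
    simp only [Fintype.sum_bool]
    have e2 : ∀ i : {i : κ // y i ≠ 0}, lam * (c i.1 * (inner ℝ (y i.1) g) ^ (2 * t)) / 2 +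
        lam * (c i.1 * (inner ℝ (y i.1) g) ^ (2 * t)) / 2 =
        lam * (c i.1 * (inner ℝ (y i.1) g) ^ (2 * t)) := fun i => by ring
    simp_rw [e2]
    refine Fintype.sum_of_injective (fun i : {i : κ // y i ≠ 0} => i.1) Subtype.val_injective
      _ _ ?_ (fun i => rfl)
    intro i hi
    have hi0 : y i = 0 := by
      by_contra h0
      exact hi ⟨⟨i, h0⟩, rfl⟩
    have : 2 * t ≠ 0 := by omega
    rw [hi0]; simp [this]
  let σ : ι ≃ ι :=
    { toFun := fun i => (i.1, !i.2)
      invFun := fun i => (i.1, !i.2)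
      left_inv := fun i => by simp
      right_inv := fun i => by simp }
  have hxσ : ∀ i, (x (σ i) : Eu d) = -(x i : Eu d) := by
    rintro ⟨i, b⟩
    change sg (!b) • ‖y i.1‖⁻¹ • y i.1 = -(sg b • ‖y i.1‖⁻¹ • y i.1)
    cases b <;> simp [sg]
  have hwσ : ∀ i, w (σ i) = w i := fun i => rfl
  have hfin := Lam_all x w hmom σ hxσ hwσ
  -- sums over `ι`
  have hsumι : ∀ F : κ → ℝ, (∀ i, y i = 0 → F i = 0) → ∑ i : ι, F i.1.1 / 2 = ∑ i, F i := by
    intro F hF
    rw [Fintype.sum_prod_type]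
    simp only [Fintype.sum_bool]
    have e2 : ∀ i : {i : κ // y i ≠ 0}, F i.1 / 2 + F i.1 / 2 = F i.1 := fun i => by ring
    simp_rw [e2]
    refine Fintype.sum_of_injective (fun i : {i : κ // y i ≠ 0} => i.1) Subtype.val_injective
      _ _ ?_ (fun i => rfl)
    intro i hi
    apply hF
    by_contra h0
    exact hi ⟨⟨i, h0⟩, rfl⟩
  have h2t : 2 * t ≠ 0 := by omega
  let e := Fintype.equivFin ι
  refine ⟨Fintype.card ι, ?_, fun i => x (e.symm i), fun i => w (e.symm i), ?_, ?_, lam, hlam,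
    ?_, ?_⟩
  · simp only [ι, Fintype.card_prod, Fintype.card_bool]
    rw [mul_comm]
    refine Nat.mul_le_mul_left 2 ((Fintype.card_subtype_le _).trans ?_)
    simp [κ]
  · intro P hP
    have h1 := hfin P hP
    rw [Lam_apply, sub_eq_zero] at h1
    rw [← Equiv.sum_comp e]
    simp only [Equiv.symm_apply_apply]
    exact h1
  · -- number of negative weights
    have hcard : (univ.filter fun i => w (e.symm i) < 0).card ≤
        ((univ : Finset κ₂).map ⟨(Sum.inr : κ₂ → κ), Sum.inr_injective⟩ ×ˢ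
          (univ : Finset Bool)).card := by
      refine Finset.card_le_card_of_injOn (fun i => ((e.symm i).1.1, (e.symm i).2)) ?_ ?_
      · intro i hi
        have hi' : w (e.symm i) < 0 := (Finset.mem_filter.mp hi).2
        rw [Finset.mem_coe, Finset.mem_product]
        refine ⟨?_, Finset.mem_univ _⟩
        rw [Finset.mem_map]
        rcases hk : (e.symm i).1.1 with k | k
        · exfalso
          have : 0 ≤ w (e.symm i) := by
            simp only [w]
            rw [hk]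
            have := hc k
            positivity
          linarith
        · exact ⟨k, Finset.mem_univ k, hk.symm⟩
      · intro i _ i' _ hii
        simp only [Prod.mk.injEq] at hii
        apply e.symm.injective
        exact Prod.ext (Subtype.ext hii.1) hii.2
    refine hcard.trans ?_
    rw [Finset.card_product, Finset.card_map, Finset.card_univ, Finset.card_univ,
      Fintype.card_bool, mul_comm]
  · rw [← hsumι (fun i => c i * ‖y i‖ ^ (2 * t)) (fun i hi => by rw [hi]; simp [h2t])]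
    rw [← Equiv.sum_comp e, Finset.mul_sum]
    simp only [Equiv.symm_apply_apply]
    refine Finset.sum_congr rfl fun i _ => ?_
    simp only [w]
    ring
  · let F : κ → ℝ := Sum.elim (fun _ => 0)
      (fun k => lam * (|c (Sum.inr k)| * ‖y (Sum.inr k)‖ ^ (2 * t)))
    have h1 : ∑ i : ι, F i.1.1 / 2 = lam * ∑ i, |c (Sum.inr i)| * ‖y (Sum.inr i)‖ ^ (2 * t) := by
      rw [hsumι F, Fintype.sum_sum_type, Finset.mul_sum]
      · simp [F]
      · rintro (k | k) hk
        · rfl
        · simp only [F, Sum.elim_inr]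
          rw [hk]; simp [h2t]
    rw [← h1, ← Equiv.sum_comp e]
    simp only [Equiv.symm_apply_apply]
    refine Finset.sum_le_sum fun i _ => ?_
    rcases hk : i.1.1 with k | k
    · have : 0 ≤ w i := by
        simp only [w]
        rw [hk]
        have := hc k
        positivity
      rw [max_eq_right (by linarith)]
      simp [F]
    · simp only [F, Sum.elim_inr]
      have h2 : |w i| = lam * (|c (Sum.inr k)| * ‖y (Sum.inr k)‖ ^ (2 * t)) / 2 := by
        simp only [w]
        rw [hk, abs_div, abs_mul, abs_mul, abs_of_pos hlam, abs_of_nonneg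
          (by positivity : (0 : ℝ) ≤ ‖y (Sum.inr k)‖ ^ (2 * t)), abs_of_pos (by norm_num : (0 : ℝ) < 2)]
        ring
      rw [← h2]
      exact max_le (neg_le_abs _) (abs_nonneg _)

end Pool.Agent.A2B65
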