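import Pool.Agent.Lib.MP_a2be38_co_h65.Mom

/-!
# Squarefree polynomials in the squared coordinates of a design
-/

set_option autoImplicit false

open Finset

namespace Pool.Agent.A2B65

/-- the data of a design which we use -/
structure Dat {d N : ℕ} (t : ℕ) (x : Fin N → Fin d → ℝ) (w : Fin N → ℝ) (c : ℕ → ℝ) : Prop where
  hd : 1 ≤ d
  hw : ∀ i, 0 < w i
  hx : ∀ i, ∑ l, x i l ^ 2 = 1
  hM : 0 < ∑ i, w i
  hc0 : c 0 = ∑ i, w i
  hcs : ∀ j < t, c (j + 1) * (d + 2 * j) = c j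
  hm : ∀ j ≤ t, ∀ m : Fin d → ℕ, ∑ l, m l = 2 * j →
    ∑ i, w i * ∏ l, x i l ^ m l = c j * ∏ l, gam (m l)

/-- subsets with `s` elements -/
abbrev Bs (d s : ℕ) := {B : Finset (Fin d) // B.card = s}

variable {d N t : ℕ} {x : Fin N → Fin d → ℝ} {w : Fin N → ℝ} {c : ℕ → ℝ}

theorem Dat.c_pos (h : Dat t x w c) : ∀ j ≤ t, 0 < c j := by
  intro j
  induction j with
  | zero => intro _; rw [h.hc0]; exact h.hM
  | succ j ih =>
    intro hj
    have h1 := ih (by omega)
    have h2 := h.hcs j (by omega)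
    have h3 : (0 : ℝ) < d := by exact_mod_cast h.hd
    have h4 : (0 : ℝ) < (d : ℝ) + 2 * j := by positivity
    by_contra hneg
    push Not at hneg
    have := mul_nonpos_of_nonpos_of_nonneg hneg h4.le
    linarith

theorem Dat.c_bounds (h : Dat t x w c) : ∀ j ≤ t,
    c j * (d : ℝ) ^ j ≤ ∑ i, w i ∧ ∑ i, w i ≤ c j * ((d : ℝ) + 2 * t) ^ j := by
  intro j
  induction j with
  | zero => intro _; rw [h.hc0]; simp
  | succ j ih =>
    intro hj
    obtain ⟨h1, h2⟩ := ih (by omega)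
    have h3 := h.hcs j (by omega)
    have hp := h.c_pos (j + 1) hj
    have hd0 : (0 : ℝ) < d := by exact_mod_cast h.hd
    have hjt : (j : ℝ) ≤ t := by exact_mod_cast (by omega : j ≤ t)
    have hj0 : (0 : ℝ) ≤ j := Nat.cast_nonneg j
    rw [← h3] at h1 h2
    constructor
    · refine le_trans ?_ h1
      rw [pow_succ]
      have : c (j + 1) * ((d : ℝ) ^ j * d) ≤ c (j + 1) * ((d : ℝ) ^ j * (d + 2 * j)) := by
        apply mul_le_mul_of_nonneg_left _ hp.le
        apply mul_le_mul_of_nonneg_left _ (by positivity)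
        linarith
      calc c (j + 1) * ((d : ℝ) ^ j * d) ≤ c (j + 1) * ((d : ℝ) ^ j * (d + 2 * j)) := this
        _ = _ := by ring
    · refine h2.trans ?_
      rw [pow_succ]
      calc c (j + 1) * (d + 2 * j) * ((d : ℝ) + 2 * t) ^ j
          = c (j + 1) * (((d : ℝ) + 2 * t) ^ j * (d + 2 * j)) := by ring
        _ ≤ c (j + 1) * (((d : ℝ) + 2 * t) ^ j * (d + 2 * t)) := by
            apply mul_le_mul_of_nonneg_left _ hp.le
            apply mul_le_mul_of_nonneg_left _ (by positivity)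
            linarith

/-- correlations of squarefree monomials in the squares -/
theorem Dat.corr (h : Dat t x w c) {s : ℕ} (hs : 2 * s ≤ t) (B B' : Bs d s) :
    ∑ i, w i * ((∏ l ∈ B.1, x i l ^ 2) * ∏ l ∈ B'.1, x i l ^ 2) =
      c (2 * s) * 3 ^ (B.1 ∩ B'.1).card := by
  classical
  have h1 := h.hm (2 * s) hs (fun l => (if l ∈ B.1 then 2 else 0) + if l ∈ B'.1 then 2 else 0) (by
    rw [Finset.sum_add_distrib, Finset.sum_ite_mem, Finset.sum_ite_mem, Finset.univ_inter,
      Finset.univ_inter, Finset.sum_const, Finset.sum_const, B.2, B'.2]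
    simp
    ring)
  have h2 : ∀ i, ∏ l, x i l ^ ((if l ∈ B.1 then 2 else 0) + if l ∈ B'.1 then 2 else 0) =
      (∏ l ∈ B.1, x i l ^ 2) * ∏ l ∈ B'.1, x i l ^ 2 := by
    intro i
    simp_rw [pow_add]
    rw [Finset.prod_mul_distrib]
    have h3 : ∀ B : Finset (Fin d), ∏ l, x i l ^ (if l ∈ B then 2 else 0) = ∏ l ∈ B, x i l ^ 2 := by
      intro B
      have : ∀ l, x i l ^ (if l ∈ B then 2 else 0) = if l ∈ B then x i l ^ 2 else 1 := by
        intro l; split_ifs <;> simp
      simp_rw [this]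
      rw [Finset.prod_ite_mem, Finset.univ_inter]
    rw [h3, h3]
  simp_rw [h2] at h1
  rw [h1]
  congr 1
  have h4 : ∀ l, gam ((if l ∈ B.1 then 2 else 0) + if l ∈ B'.1 then 2 else 0) =
      if l ∈ B.1 ∩ B'.1 then 3 else 1 := by
    intro l
    by_cases h5 : l ∈ B.1 <;> by_cases h6 : l ∈ B'.1 <;>
      simp [Finset.mem_inter, h5, h6, gam_zero, gam_two, gam_four]
  simp_rw [h4]
  rw [Finset.prod_ite_mem, Finset.univ_inter, Finset.prod_const]

/-- the Gram matrix is bounded below -/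
theorem Dat.gram (h : Dat t x w c) {s : ℕ} (hs : 2 * s ≤ t) (f : Bs d s → ℝ) :
    c (2 * s) * 2 ^ s * ∑ B, f B ^ 2 ≤ ∑ i, w i * (∑ B, f B * ∏ l ∈ B.1, x i l ^ 2) ^ 2 := by
  classical
  have h1 : ∑ i, w i * (∑ B, f B * ∏ l ∈ B.1, x i l ^ 2) ^ 2 =
      c (2 * s) * ∑ B : Bs d s, ∑ B' : Bs d s, f B * f B' * 3 ^ (B.1 ∩ B'.1).card := by
    have e1 : ∀ i, w i * (∑ B, f B * ∏ l ∈ B.1, x i l ^ 2) ^ 2 = ∑ B : Bs d s, ∑ B' : Bs d s,
        f B * f B' * (w i * ((∏ l ∈ B.1, x i l ^ 2) * ∏ l ∈ B'.1, x i l ^ 2)) := by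
      intro i
      rw [sq, Finset.sum_mul_sum, Finset.mul_sum]
      refine Finset.sum_congr rfl fun B _ => ?_
      rw [Finset.mul_sum]
      refine Finset.sum_congr rfl fun B' _ => ?_
      ring
    simp_rw [e1]
    rw [Finset.sum_comm, Finset.mul_sum]
    refine Finset.sum_congr rfl fun B _ => ?_
    rw [Finset.sum_comm, Finset.mul_sum]
    refine Finset.sum_congr rfl fun B' _ => ?_
    rw [← Finset.mul_sum, h.corr hs B B']
    ring
  rw [h1, mul_assoc]
  apply mul_le_mul_of_nonneg_left _ (h.c_pos _ hs).le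
  have h2 : ∀ B B' : Finset (Fin d), (3 : ℝ) ^ (B ∩ B').card =
      ∑ C : Finset (Fin d), 2 ^ C.card * ((if C ⊆ B then 1 else 0) * (if C ⊆ B' then 1 else 0)) := by
    intro B B'
    have e1 := Finset.sum_pow_mul_eq_add_pow (2 : ℝ) 1 (B ∩ B')
    rw [show (2 : ℝ) + 1 = 3 by norm_num] at e1
    rw [← e1, ← Finset.sum_filter_add_sum_filter_not univ (fun C => C ⊆ B ∩ B')]
    have e2 : ∑ C ∈ univ.filter (fun C : Finset (Fin d) => ¬ C ⊆ B ∩ B'), (2 : ℝ) ^ C.card *
        ((if C ⊆ B then 1 else 0) * (if C ⊆ B' then 1 else 0)) = 0 := by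
      apply Finset.sum_eq_zero
      intro C hC
      have hC' := (Finset.mem_filter.mp hC).2
      rw [Finset.subset_inter_iff, not_and_or] at hC'
      rcases hC' with hC' | hC' <;> simp [hC']
    rw [e2, add_zero]
    have e3 : univ.filter (fun C : Finset (Fin d) => C ⊆ B ∩ B') = (B ∩ B').powerset := by
      ext C
      rw [Finset.mem_filter, Finset.mem_powerset]
      simp only [Finset.mem_univ, true_and]
    rw [e3]
    refine Finset.sum_congr rfl fun C hC => ?_
    rw [Finset.mem_powerset, Finset.subset_inter_iff] at hC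
    simp [hC.1, hC.2]
  have h3 : ∑ B : Bs d s, ∑ B' : Bs d s, f B * f B' * 3 ^ (B.1 ∩ B'.1).card =
      ∑ C : Finset (Fin d), 2 ^ C.card * (∑ B : Bs d s, if C ⊆ B.1 then f B else 0) ^ 2 := by
    have e1 : ∀ C : Finset (Fin d), (2 : ℝ) ^ C.card *
        (∑ B : Bs d s, if C ⊆ B.1 then f B else 0) ^ 2 = ∑ B : Bs d s, ∑ B' : Bs d s,
        f B * f B' * (2 ^ C.card * ((if C ⊆ B.1 then 1 else 0) * (if C ⊆ B'.1 then 1 else 0))) := by
      intro C
      rw [sq, Finset.sum_mul_sum, Finset.mul_sum]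
      refine Finset.sum_congr rfl fun B _ => ?_
      rw [Finset.mul_sum]
      refine Finset.sum_congr rfl fun B' _ => ?_
      split_ifs <;> ring
    calc ∑ B : Bs d s, ∑ B' : Bs d s, f B * f B' * 3 ^ (B.1 ∩ B'.1).card
        = ∑ B : Bs d s, ∑ B' : Bs d s, ∑ C : Finset (Fin d), f B * f B' * (2 ^ C.card *
          ((if C ⊆ B.1 then 1 else 0) * (if C ⊆ B'.1 then 1 else 0))) := by
          refine Finset.sum_congr rfl fun B _ => Finset.sum_congr rfl fun B' _ => ?_
          rw [h2, Finset.mul_sum]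
      _ = ∑ B : Bs d s, ∑ C : Finset (Fin d), ∑ B' : Bs d s, f B * f B' * (2 ^ C.card *
          ((if C ⊆ B.1 then 1 else 0) * (if C ⊆ B'.1 then 1 else 0))) :=
          Finset.sum_congr rfl fun B _ => Finset.sum_comm
      _ = ∑ C : Finset (Fin d), ∑ B : Bs d s, ∑ B' : Bs d s, f B * f B' * (2 ^ C.card *
          ((if C ⊆ B.1 then 1 else 0) * (if C ⊆ B'.1 then 1 else 0))) := Finset.sum_comm
      _ = _ := Finset.sum_congr rfl fun C _ => (e1 C).symm
  rw [h3]
  have h4 : ∀ C : Bs d s, (∑ B : Bs d s, if C.1 ⊆ B.1 then f B else 0) = f C := by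
    intro C
    rw [Finset.sum_eq_single C]
    · simp
    · intro B _ hB
      rw [if_neg]
      intro hsub
      apply hB
      exact (Subtype.ext (Finset.eq_of_subset_of_card_le hsub (by rw [B.2, C.2]))).symm
    · intro h0; exact absurd (Finset.mem_univ _) h0
  calc (2 : ℝ) ^ s * ∑ B, f B ^ 2 = ∑ C : Bs d s, 2 ^ C.1.card *
        (∑ B : Bs d s, if C.1 ⊆ B.1 then f B else 0) ^ 2 := by
        rw [Finset.mul_sum]
        refine Finset.sum_congr rfl fun C _ => ?_
        rw [h4, C.2]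
    _ = ∑ C ∈ univ.map ⟨(Subtype.val : Bs d s → Finset (Fin d)), Subtype.val_injective⟩,
          2 ^ C.card * (∑ B : Bs d s, if C ⊆ B.1 then f B else 0) ^ 2 := by
        rw [Finset.sum_map]; rfl
    _ ≤ _ := Finset.sum_le_sum_of_subset_of_nonneg (Finset.subset_univ _)
        fun C _ _ => by positivity

/-- elementary symmetric functions -/
theorem esymm_le (s : ℕ) (a : Fin d → ℝ) (ha : ∀ l, 0 ≤ a l) :
    ∑ B : Bs d s, ∏ l ∈ B.1, a l ≤ (∑ l, a l) ^ s := by
  classical
  rw [Finset.sum_pow_eq_sum_piAntidiag]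
  let φ : Bs d s → Fin d → ℕ := fun B l => if l ∈ B.1 then 1 else 0
  have hφ : Function.Injective φ := by
    intro B B' hBB
    apply Subtype.ext
    ext l
    have := congrFun hBB l
    simp only [φ] at this
    by_cases h1 : l ∈ B.1 <;> by_cases h2 : l ∈ B'.1 <;> simp_all
  have h1 : ∀ B : Bs d s, ∏ l ∈ B.1, a l = ∏ l, a l ^ φ B l := by
    intro B
    have : ∀ l, a l ^ φ B l = if l ∈ B.1 then a l else 1 := by
      intro l
      simp only [φ]
      split_ifs <;> simp
    simp_rw [this]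
    rw [Finset.prod_ite_mem, Finset.univ_inter]
  simp_rw [h1]
  calc ∑ B : Bs d s, ∏ l, a l ^ φ B l = ∑ k ∈ univ.map ⟨φ, hφ⟩, ∏ l, a l ^ k l := by
        rw [Finset.sum_map]; rfl
    _ ≤ ∑ k ∈ piAntidiag (univ : Finset (Fin d)) s, ∏ l, a l ^ k l := by
        apply Finset.sum_le_sum_of_subset_of_nonneg
        · intro k hk
          rw [Finset.mem_map] at hk
          obtain ⟨B, _, rfl⟩ := hk
          rw [mem_piAntidiag]
          refine ⟨?_, fun i _ => Finset.mem_univ i⟩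
          simp only [Function.Embedding.coeFn_mk, φ]
          rw [Finset.sum_ite_mem, Finset.univ_inter]
          simp [B.2]
        · intro k _ _
          exact Finset.prod_nonneg fun l _ => pow_nonneg (ha l) _
    _ ≤ _ := by
        refine Finset.sum_le_sum fun k _ => ?_
        have h2 : (1 : ℝ) ≤ (Nat.multinomial univ k : ℝ) := by
          exact_mod_cast Nat.multinomial_pos _ _
        have h3 : 0 ≤ ∏ l, a l ^ k l := Finset.prod_nonneg fun l _ => pow_nonneg (ha l) _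
        nlinarith

/-- Many patterns: if the vectors of squarefree monomials of the points in `Dn` lie in a finite
set `P`, then the remaining points carry much of the mass. -/
theorem Dat.dim_bound (h : Dat t x w c) {s : ℕ} (hs : 2 * s ≤ t) (Dn : Finset (Fin N))
    (P : Finset (Bs d s → ℝ)) (hP : ∀ i ∈ Dn, (fun B : Bs d s => ∏ l ∈ B.1, x i l ^ 2) ∈ P) :
    ((d.choose s : ℝ) - P.card) * (c (2 * s) * 2 ^ s) ≤
      ∑ i ∈ Dnᶜ, w i * (∑ l, x i l ^ 4) ^ s := by
  classical
  let V := EuclideanSpace ℝ (Bs d s)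
  let U : Submodule ℝ V := Submodule.span ℝ
    ((P.image (fun f => (WithLp.toLp 2 f : V)) : Finset V) : Set V)
  have hU : Module.finrank ℝ U ≤ P.card :=
    (finrank_span_finset_le_card (R := ℝ) (P.image (fun f => (WithLp.toLp 2 f : V)))).trans
      Finset.card_image_le
  have hV : Module.finrank ℝ V = d.choose s := by
    rw [finrank_euclideanSpace, Fintype.card_finset_len, Fintype.card_fin]
  have hK : Module.finrank ℝ U + Module.finrank ℝ Uᗮ = d.choose s := by
    rw [← hV]; exact Submodule.finrank_add_finrank_orthogonal U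
  set κ := Module.finrank ℝ Uᗮ with hκ
  let b := stdOrthonormalBasis ℝ Uᗮ
  let e : Fin κ → V := fun j => (b j : V)
  have he : Orthonormal ℝ e := b.orthonormal.comp_linearIsometry (Uᗮ).subtypeₗᵢ
  let v : Fin N → V := fun i => WithLp.toLp 2 fun B : Bs d s => ∏ l ∈ B.1, x i l ^ 2
  have hinner : ∀ j i, inner ℝ (e j) (v i) =
      ∑ B : Bs d s, (WithLp.ofLp (e j) B) * ∏ l ∈ B.1, x i l ^ 2 := by
    intro j i
    rw [PiLp.inner_apply]
    refine Finset.sum_congr rfl fun B _ => ?_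
    simp [v, mul_comm]
  have horth : ∀ i ∈ Dn, ∀ j, inner ℝ (e j) (v i) = 0 := by
    intro i hi j
    have h1 : v i ∈ U := by
      apply Submodule.subset_span
      rw [Finset.mem_coe, Finset.mem_image]
      exact ⟨_, hP i hi, rfl⟩
    exact Submodule.inner_left_of_mem_orthogonal h1 (b j).2
  have h1 : ∀ j, c (2 * s) * 2 ^ s ≤ ∑ i ∈ Dnᶜ, w i * (inner ℝ (e j) (v i)) ^ 2 := by
    intro j
    have h2 := h.gram hs (WithLp.ofLp (e j))
    have h3 : ∑ B, (WithLp.ofLp (e j) B) ^ 2 = 1 := by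
      have h4 := EuclideanSpace.real_norm_sq_eq (e j)
      rw [he.1 j] at h4
      rw [← h4]; norm_num
    rw [h3, mul_one] at h2
    simp_rw [← hinner] at h2
    refine h2.trans (le_of_eq ?_)
    rw [← Finset.sum_add_sum_compl Dn]
    have h5 : ∑ i ∈ Dn, w i * (inner ℝ (e j) (v i)) ^ 2 = 0 := by
      apply Finset.sum_eq_zero
      intro i hi
      rw [horth i hi j]; ring
    rw [h5, zero_add]
  have h2 : (κ : ℝ) * (c (2 * s) * 2 ^ s) ≤
      ∑ i ∈ Dnᶜ, w i * ∑ j, (inner ℝ (e j) (v i)) ^ 2 := by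
    calc (κ : ℝ) * (c (2 * s) * 2 ^ s) = ∑ _j : Fin κ, c (2 * s) * 2 ^ s := by
          rw [Finset.sum_const, Finset.card_univ, Fintype.card_fin, nsmul_eq_mul]
      _ ≤ ∑ j : Fin κ, ∑ i ∈ Dnᶜ, w i * (inner ℝ (e j) (v i)) ^ 2 :=
          Finset.sum_le_sum fun j _ => h1 j
      _ = _ := by
          rw [Finset.sum_comm]
          refine Finset.sum_congr rfl fun i _ => ?_
          rw [Finset.mul_sum]
  have h3 : ∀ i, ∑ j, (inner ℝ (e j) (v i)) ^ 2 ≤ (∑ l, x i l ^ 4) ^ s := by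
    intro i
    have h4 := he.sum_inner_products_le (x := v i) (s := univ)
    have h5 : ∀ j, ‖inner ℝ (e j) (v i)‖ ^ 2 = (inner ℝ (e j) (v i)) ^ 2 := by
      intro j; rw [Real.norm_eq_abs, sq_abs]
    simp_rw [h5] at h4
    refine h4.trans ?_
    rw [EuclideanSpace.real_norm_sq_eq]
    have h6 : ∀ B : Bs d s, (WithLp.ofLp (v i) B) ^ 2 = ∏ l ∈ B.1, x i l ^ 4 := by
      intro B
      simp only [v]
      rw [← Finset.prod_pow]
      refine Finset.prod_congr rfl fun l _ => ?_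
      ring
    simp_rw [h6]
    exact esymm_le s (fun l => x i l ^ 4) (fun l => by positivity)
  have h4 : (κ : ℝ) * (c (2 * s) * 2 ^ s) ≤ ∑ i ∈ Dnᶜ, w i * (∑ l, x i l ^ 4) ^ s :=
    h2.trans (Finset.sum_le_sum fun i _ => mul_le_mul_of_nonneg_left (h3 i) (h.hw i).le)
  refine le_trans ?_ h4
  have hc := h.c_pos _ hs
  apply mul_le_mul_of_nonneg_right _ (by positivity)
  have h5 : (d.choose s : ℝ) = (Module.finrank ℝ U : ℝ) + κ := by exact_mod_cast hK.symm
  have h6 : (Module.finrank ℝ U : ℝ) ≤ P.card := by exact_mod_cast hU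
  linarith

end Pool.Agent.A2B65
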