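import Pool.Agent.Lib.MP_a2be38_co_h65.Split

/-!
# Moments of sign vectors with one boosted coordinate
-/

set_option autoImplicit false

open Finset

namespace Pool.Agent.A2B65

open Pool.Agent.A2B69

/-- monomials over an orthogonal array, in terms of the number of odd exponents -/
theorem oa_monomial {I Ω : Type} [Fintype I] [Fintype Ω] {ε : I → Ω → ℝ} {r : ℕ} (h : IsOA ε r)
    (k : I → ℕ) (hk : (univ.filter fun i => Odd (k i)).card ≤ r) :
    ∑ ω, ∏ i, ε i ω ^ k i = if ∀ i, Even (k i) then (Fintype.card Ω : ℝ) else 0 := by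
  classical
  have h1 : ∀ ω, ∏ i, ε i ω ^ k i = ∏ i ∈ univ.filter fun i => Odd (k i), ε i ω := by
    intro ω
    rw [Finset.prod_filter]
    refine Finset.prod_congr rfl fun i _ => ?_
    split_ifs with ho
    · obtain ⟨j, hj⟩ := ho
      rw [hj, pow_succ, pow_mul, h.sq, one_pow, one_mul]
    · obtain ⟨j, hj⟩ := Nat.not_odd_iff_even.mp ho
      rw [hj, ← two_mul, pow_mul, h.sq, one_pow]
  simp_rw [h1]
  split_ifs with hev
  · have : (univ.filter fun i => Odd (k i)) = ∅ := by
      rw [Finset.filter_eq_empty_iff]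
      intro i _
      exact Nat.not_odd_iff_even.mpr (hev i)
    rw [this]
    simp
  · apply h.bal _ _ hk
    push Not at hev
    obtain ⟨i, hi'⟩ := hev
    exact ⟨i, Finset.mem_filter.mpr ⟨Finset.mem_univ i, Nat.not_even_iff_odd.mp hi'⟩⟩

/-- the excess of the `n`-th moment of a boosted sign -/
noncomputable def J (r : ℝ) (n : ℕ) : ℝ := ((1 + r) ^ n + (1 - r) ^ n) / 2 - 1

theorem J_zero (r : ℝ) : J r 0 = 0 := by simp [J]

theorem J_one (r : ℝ) : J r 1 = 0 := by simp [J]

theorem J_two (r : ℝ) : J r 2 = r ^ 2 := by unfold J; ring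

theorem J_four (r : ℝ) : J r 4 = 6 * r ^ 2 + (r ^ 2) ^ 2 := by unfold J; ring

theorem J_le {r : ℝ} (hr : 1 ≤ r) (k : ℕ) : |J r (2 * k)| ≤ 4 ^ k * (r ^ 2) ^ k := by
  have h1 : (1 + r) ^ (2 * k) ≤ (2 * r) ^ (2 * k) := pow_le_pow_left₀ (by linarith) (by linarith) _
  have h2 : (1 - r) ^ (2 * k) ≤ (2 * r) ^ (2 * k) := by
    rw [show (1 - r) ^ (2 * k) = (r - 1) ^ (2 * k) by
      rw [pow_mul, pow_mul]; congr 1; ring]
    exact pow_le_pow_left₀ (by linarith) (by linarith) _
  have h3 : 1 ≤ (1 + r) ^ (2 * k) := one_le_pow₀ (by linarith)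
  have h4 : 0 ≤ (1 - r) ^ (2 * k) := by rw [pow_mul]; positivity
  have h5 : (2 * r) ^ (2 * k) = 4 ^ k * (r ^ 2) ^ k := by
    rw [pow_mul, ← mul_pow]; congr 1; ring
  have h6 : 1 ≤ (2 * r) ^ (2 * k) := one_le_pow₀ (by linarith)
  rw [← h5, J, abs_le]
  constructor <;> linarith

theorem sign_pow {e : ℝ} (he : e ^ 2 = 1) (r : ℝ) (n : ℕ) :
    (e + r) ^ n + (e + -r) ^ n = 2 * e ^ n * (1 + J r n) := by
  have h : (e - 1) * (e + 1) = 0 := by nlinarith
  unfold J
  rcases mul_eq_zero.mp h with h | h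
  · have : e = 1 := by linarith
    rw [this]; ring
  · have : e = -1 := by linarith
    rw [this, show (-1 + r : ℝ) = -1 * (1 - r) by ring, show (-1 + -r : ℝ) = -1 * (1 + r) by ring,
      mul_pow, mul_pow]
    ring

section

variable {n s : ℕ} {Ω₁ Ω₂ : Type} [Fintype Ω₁] [Fintype Ω₂] [DecidableEq Ω₂]
  (ε : Fin n → Ω₁ → Ω₂ → ℝ) (j : Fin n ↪ Ω₂) (r : ℝ)

/-- the vectors -/
def yv (p : Ω₁ × Ω₂ × Bool) (x : Fin n) : ℝ :=
  ε x p.1 p.2.1 + if p.2.1 = j x then (if p.2.2 then r else -r) else 0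

theorem sum_bool (hsq : ∀ x a b, ε x a b ^ 2 = 1) (m : Fin n → ℕ) (a : Ω₁) (b : Ω₂) :
    ∑ c : Bool, ∏ x, yv ε j r (a, b, c) x ^ m x =
      2 * ((∏ x, ε x a b ^ m x) * (1 + ∑ x, if b = j x then J r (m x) else 0)) := by
  classical
  by_cases hb : ∃ x₀, j x₀ = b
  · obtain ⟨x₀, rfl⟩ := hb
    have h1 : ∀ x, (j x₀ = j x) ↔ x = x₀ := fun x =>
      ⟨fun h => (j.injective h).symm, fun h => by rw [h]⟩
    have h2 : ∑ x, (if j x₀ = j x then J r (m x) else 0) = J r (m x₀) := by
      simp_rw [h1]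
      rw [Finset.sum_ite_eq' univ x₀ fun x => J r (m x)]
      simp
    rw [h2, Fintype.sum_bool]
    have h3 : ∀ c : Bool, ∏ x, yv ε j r (a, j x₀, c) x ^ m x =
        (ε x₀ a (j x₀) + (if c then r else -r)) ^ m x₀ *
          ∏ x ∈ univ.erase x₀, ε x a (j x₀) ^ m x := by
      intro c
      rw [← Finset.mul_prod_erase univ _ (Finset.mem_univ x₀)]
      congr 1
      · simp [yv]
      · refine Finset.prod_congr rfl fun x hx => ?_
        have hx' : x ≠ x₀ := (Finset.mem_erase.mp hx).1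
        have : ¬ (j x₀ = j x) := fun h => hx' ((h1 x).mp h)
        simp only [yv]
        rw [if_neg this, add_zero]
    rw [h3, h3, ← Finset.mul_prod_erase univ (fun x => ε x a (j x₀) ^ m x) (Finset.mem_univ x₀)]
    simp only [if_true, Bool.false_eq_true, if_false]
    rw [← add_mul, sign_pow (hsq x₀ a (j x₀))]
    ring
  · push Not at hb
    have h1 : ∀ x, ¬ (b = j x) := fun x h => hb x h.symm
    have h3 : ∀ c : Bool, ∏ x, yv ε j r (a, b, c) x ^ m x = ∏ x, ε x a b ^ m x := by
      intro c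
      refine Finset.prod_congr rfl fun x _ => ?_
      simp only [yv]
      rw [if_neg (h1 x), add_zero]
    simp_rw [h3]
    simp [h1]

/-- the moments of degree at most `2 s + 2` -/
theorem jump_moment (hsq : ∀ x a b, ε x a b ^ 2 = 1)
    (h1 : ∀ S : Finset (Fin n), S.Nonempty → S.card ≤ 2 * s + 1 → ∀ b, ∑ a, ∏ x ∈ S, ε x a b = 0)
    (h2 : ∀ S : Finset (Fin n), S.Nonempty → S.card ≤ 2 * s + 3 →
        ∑ b, ∑ a, ∏ x ∈ S, ε x a b = 0)
    (m : Fin n → ℕ) (hm : ∑ x, m x ≤ 2 * s + 2) :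
    ∑ p : Ω₁ × Ω₂ × Bool, ∏ x, yv ε j r p x ^ m x =
      if ∀ x, Even (m x) then 2 * ((Fintype.card Ω₁ : ℝ) * (Fintype.card Ω₂ : ℝ) +
        (Fintype.card Ω₁ : ℝ) * ∑ x, J r (m x)) else 0 := by
  classical
  have hodd : (univ.filter fun i => Odd (m i)).card ≤ ∑ x, m x := by
    calc (univ.filter fun i => Odd (m i)).card = ∑ i ∈ univ.filter fun i => Odd (m i), 1 := by simp
      _ ≤ ∑ i ∈ univ.filter fun i => Odd (m i), m i := by
          refine Finset.sum_le_sum fun i hi => ?_
          exact (Finset.mem_filter.mp hi).2.pos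
      _ ≤ ∑ i, m i := Finset.sum_le_sum_of_subset (Finset.filter_subset _ _)
  have e1 : ∑ p : Ω₁ × Ω₂ × Bool, ∏ x, yv ε j r p x ^ m x = ∑ b : Ω₂, ∑ a : Ω₁,
      2 * ((∏ x, ε x a b ^ m x) * (1 + ∑ x, if b = j x then J r (m x) else 0)) := by
    rw [Fintype.sum_prod_type, Finset.sum_comm' (t' := univ) (s' := fun _ => univ) (by simp)]
    rw [Fintype.sum_prod_type]
    refine Finset.sum_congr rfl fun b _ => ?_
    rw [Finset.sum_comm]
    refine Finset.sum_congr rfl fun a _ => ?_
    rw [sum_bool ε j r hsq m a b]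
  rw [e1]
  have e2 : ∑ b : Ω₂, ∑ a : Ω₁, 2 * ((∏ x, ε x a b ^ m x) *
      (1 + ∑ x, if b = j x then J r (m x) else 0)) =
      2 * (∑ p : Ω₂ × Ω₁, ∏ x, ε x p.2 p.1 ^ m x) +
      2 * ∑ x, J r (m x) * ∑ a, ∏ x', ε x' a (j x) ^ m x' := by
    have e3 : ∀ b : Ω₂, ∑ a : Ω₁, 2 * ((∏ x, ε x a b ^ m x) *
        (1 + ∑ x, if b = j x then J r (m x) else 0)) = 2 * (∑ a, ∏ x, ε x a b ^ m x) +
        2 * ∑ x, (if b = j x then J r (m x) * ∑ a, ∏ x', ε x' a b ^ m x' else 0) := by
      intro b
      have : ∀ x, (if b = j x then J r (m x) * ∑ a, ∏ x', ε x' a b ^ m x' else 0) =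
          (if b = j x then J r (m x) else 0) * ∑ a, ∏ x', ε x' a b ^ m x' := by
        intro x; split_ifs <;> ring
      simp_rw [this]
      rw [← Finset.sum_mul, ← Finset.mul_sum, ← Finset.sum_mul]
      ring
    simp_rw [e3]
    rw [Finset.sum_add_distrib, ← Finset.mul_sum, ← Finset.mul_sum, Fintype.sum_prod_type]
    congr 2
    rw [Finset.sum_comm]
    refine Finset.sum_congr rfl fun x _ => ?_
    rw [Finset.sum_ite_eq' univ (j x) fun b => J r (m x) * ∑ a, ∏ x', ε x' a b ^ m x']
    simp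
  rw [e2]
  have hA : ∑ p : Ω₂ × Ω₁, ∏ x, ε x p.2 p.1 ^ m x =
      if ∀ x, Even (m x) then ((Fintype.card Ω₁ : ℝ) * (Fintype.card Ω₂ : ℝ)) else 0 := by
    have hoa : IsOA (fun (x : Fin n) (p : Ω₂ × Ω₁) => ε x p.2 p.1) (2 * s + 3) := by
      refine ⟨fun x p => hsq x p.2 p.1, fun S hS hcard => ?_⟩
      rw [Fintype.sum_prod_type]
      exact h2 S hS hcard
    have h3 := oa_monomial hoa m (hodd.trans (by omega))
    rw [h3, Fintype.card_prod]
    push_cast
    rw [mul_comm]
  have hB : ∀ x, J r (m x) * ∑ a, ∏ x', ε x' a (j x) ^ m x' =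
      if ∀ x, Even (m x) then (Fintype.card Ω₁ : ℝ) * J r (m x) else 0 := by
    intro x
    rcases Nat.lt_or_ge (m x) 2 with hlt | hge
    · have : J r (m x) = 0 := by
        interval_cases m x
        · exact J_zero r
        · exact J_one r
      rw [this]; simp
    · have hoa : IsOA (fun (x' : Fin n) (a : Ω₁) => ε x' a (j x)) (2 * s + 1) :=
        ⟨fun x' a => hsq x' a (j x), fun S hS hcard => h1 S hS hcard (j x)⟩
      have hodd' : (univ.filter fun i => Odd (m i)).card ≤ 2 * s + 1 := by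
        have h4 : (univ.filter fun i => Odd (m i)).card + 1 ≤ ∑ x, m x := by
          rw [← Finset.add_sum_erase univ m (Finset.mem_univ x)]
          have h5 : ((univ.erase x).filter fun i => Odd (m i)).card ≤ ∑ i ∈ univ.erase x, m i := by
            calc ((univ.erase x).filter fun i => Odd (m i)).card
                = ∑ i ∈ (univ.erase x).filter fun i => Odd (m i), 1 := by simp
              _ ≤ ∑ i ∈ (univ.erase x).filter fun i => Odd (m i), m i := by
                  refine Finset.sum_le_sum fun i hi => ?_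
                  exact (Finset.mem_filter.mp hi).2.pos
              _ ≤ _ := Finset.sum_le_sum_of_subset (Finset.filter_subset _ _)
          by_cases hx : Odd (m x)
          · have h6 : (univ.filter fun i => Odd (m i)) =
                insert x ((univ.erase x).filter fun i => Odd (m i)) := by
              ext i
              by_cases hi : i = x
              · subst hi; simp [hx]
              · simp [hi]
            rw [h6, Finset.card_insert_of_notMem (by simp)]
            have h7 : 3 ≤ m x := by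
              obtain ⟨k, hk⟩ := hx
              omega
            omega
          · have h6 : (univ.filter fun i => Odd (m i)) =
                ((univ.erase x).filter fun i => Odd (m i)) := by
              ext i
              by_cases hi : i = x
              · subst hi; simp [hx]
              · simp [hi]
            rw [h6]
            omega
        omega
      rw [oa_monomial hoa m hodd']
      split_ifs <;> ring
  rw [hA]
  simp_rw [hB]
  split_ifs with hev
  · rw [← Finset.mul_sum]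
    ring
  · simp

end

end Pool.Agent.A2B65
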