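import Mathlib

/-!
# Correcting moments by signed combinations of points with few nonzero coordinates
-/

set_option autoImplicit false

open Finset

namespace Pool.Agent.A2B65

/-- dual functionals: coefficients of polynomials from values at `0, …, n` -/
theorem exists_dual (n : ℕ) : ∃ L : ℕ → Fin (n + 1) → ℝ,
    (∀ i, L 0 i = if i = 0 then 1 else 0) ∧
    ∀ j ≤ n, ∀ j' ≤ n, ∑ i, L j i * ((i : ℕ) : ℝ) ^ j' = if j' = j then 1 else 0 := by
  classical
  set V : Matrix (Fin (n + 1)) (Fin (n + 1)) ℝ := Matrix.vandermonde fun i => ((i : ℕ) : ℝ) with hV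
  have hdet : V.det ≠ 0 := by
    rw [hV, Matrix.det_vandermonde_ne_zero_iff]
    intro i j hij
    have hij' : ((i : ℕ) : ℝ) = ((j : ℕ) : ℝ) := hij
    exact Fin.ext (by exact_mod_cast hij')
  have hunit : IsUnit V.det := isUnit_iff_ne_zero.mpr hdet
  refine ⟨fun j => if j = 0 then (fun i => if i = 0 then 1 else 0) else
    if h : j < n + 1 then Matrix.vecMul (Pi.single ⟨j, h⟩ 1) V⁻¹ else 0, fun i => by simp, ?_⟩
  intro j hj j' hj'
  by_cases hj0 : j = 0
  · subst hj0
    simp only [if_true]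
    rw [Finset.sum_eq_single (0 : Fin (n + 1))]
    · rcases Nat.eq_zero_or_pos j' with rfl | h
      · simp
      · simp [h.ne']
    · intro i _ hi
      rw [if_neg hi, zero_mul]
    · intro h; exact absurd (Finset.mem_univ _) h
  · simp only [if_neg hj0]
    rw [dif_pos (by omega : j < n + 1)]
    have h1 : Matrix.vecMul (Matrix.vecMul (Pi.single (⟨j, by omega⟩ : Fin (n + 1)) (1 : ℝ)) V⁻¹) V =
        Pi.single (⟨j, by omega⟩ : Fin (n + 1)) 1 := by
      rw [Matrix.vecMul_vecMul, Matrix.nonsing_inv_mul V hunit, Matrix.vecMul_one]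
    have h2 := congrFun h1 ⟨j', by omega⟩
    have h3 : ∀ v : Fin (n + 1) → ℝ, Matrix.vecMul v V ⟨j', by omega⟩ =
        ∑ i, v i * ((i : ℕ) : ℝ) ^ j' := by
      intro v
      rw [Matrix.vecMul, dotProduct]
      refine Finset.sum_congr rfl fun i _ => ?_
      rw [hV, Matrix.vandermonde_apply]
    rw [h3] at h2
    rw [h2, Pi.single_apply]
    simp [Fin.ext_iff]

section

variable {d n : ℕ}

/-- number of nonzero coordinates -/
def sup (z : Fin d → ℕ) : ℕ := (univ.filter fun x => z x ≠ 0).card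

/-- Rankin bound -/
theorem rankin (n : ℕ) {q : ℝ} (hq : 0 < q) (hdq : (d : ℝ) ≤ q) :
    ∑ z : Fin d → Fin (n + 1), (q⁻¹) ^ sup (fun x => (z x : ℕ)) ≤ Real.exp n := by
  classical
  have h1 : ∀ z : Fin d → Fin (n + 1), (q⁻¹) ^ sup (fun x => (z x : ℕ)) =
      ∏ x, (if z x = 0 then 1 else q⁻¹) := by
    intro z
    rw [sup, ← Finset.prod_const, Finset.prod_filter]
    refine Finset.prod_congr rfl fun x _ => ?_
    by_cases h : z x = 0
    · rw [if_neg (by rw [h]; simp), if_pos h]
    · rw [if_pos (fun h' => h (Fin.ext (by simpa using h'))), if_neg h]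
  simp_rw [h1]
  have h2 := (Finset.prod_univ_sum (fun _ : Fin d => (Finset.univ : Finset (Fin (n + 1))))
      (fun _ i => if i = 0 then (1 : ℝ) else q⁻¹)).symm
  rw [Fintype.piFinset_univ] at h2
  rw [h2]
  have h3 : ∑ i : Fin (n + 1), (if i = 0 then (1 : ℝ) else q⁻¹) = 1 + n * q⁻¹ := by
    rw [Fin.sum_univ_succ]
    simp [Fin.succ_ne_zero]
  rw [h3, Finset.prod_const, Finset.card_univ, Fintype.card_fin]
  have h4 : 1 + n * q⁻¹ ≤ Real.exp (n * q⁻¹) := by
    have := Real.add_one_le_exp ((n : ℝ) * q⁻¹)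
    linarith
  calc (1 + n * q⁻¹) ^ d ≤ (Real.exp (n * q⁻¹)) ^ d := pow_le_pow_left₀ (by positivity) h4 _
    _ = Real.exp (d * (n * q⁻¹)) := by rw [← Real.exp_nat_mul]
    _ ≤ Real.exp n := by
        apply Real.exp_le_exp.mpr
        have : (d : ℝ) * q⁻¹ ≤ 1 := by
          rw [← div_eq_mul_inv, div_le_one hq]; exact hdq
        calc (d : ℝ) * (n * q⁻¹) = n * (d * q⁻¹) := by ring
          _ ≤ n * 1 := mul_le_mul_of_nonneg_left this (Nat.cast_nonneg n)
          _ = n := mul_one _

/-- Corrections: a family of moments of degree `n` which vanish off few coordinates is the family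
of moments of a signed combination of points with few nonzero coordinates. -/
theorem exists_local (n : ℕ) (hn : 1 ≤ n) : ∃ B : ℝ, 0 < B ∧ ∀ (d b : ℕ) (D : (Fin d → ℕ) → ℝ),
    (∀ m : Fin d → ℕ, ∑ x, m x = n → b ≤ sup m → D m = 0) →
    ∃ W : (Fin d → Fin (n + 1)) → ℝ,
      (∀ z, b ≤ sup (fun x => (z x : ℕ)) → W z = 0) ∧
      (∀ m : Fin d → ℕ, ∑ x, m x = n → ∑ z, W z * ∏ x, ((z x : ℕ) : ℝ) ^ m x = D m) ∧
      ∑ z, |W z| * (∑ x, ((z x : ℕ) : ℝ) ^ 2) ^ n ≤ B * ∑ m : Fin d → Fin (n + 1),
        if ∑ x, (m x : ℕ) = n then |D fun x => m x| else 0 := by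
  classical
  obtain ⟨L, hL0, hL⟩ := exists_dual n
  set B₀ : ℝ := 1 + ∑ j ∈ Finset.range (n + 1), ∑ i, |L j i| with hB₀
  have hB₁ : 1 ≤ B₀ := by
    rw [hB₀]
    have : 0 ≤ ∑ j ∈ Finset.range (n + 1), ∑ i, |L j i| :=
      Finset.sum_nonneg fun j _ => Finset.sum_nonneg fun i _ => abs_nonneg _
    linarith
  have hB₂ : ∀ j ≤ n, ∑ i, |L j i| ≤ B₀ := by
    intro j hj
    have : ∑ i, |L j i| ≤ ∑ j ∈ Finset.range (n + 1), ∑ i, |L j i| :=
      Finset.single_le_sum (f := fun j => ∑ i, |L j i|)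
        (fun j _ => Finset.sum_nonneg fun i _ => abs_nonneg _) (Finset.mem_range.mpr (by omega))
    linarith
  have hn0 : (0 : ℝ) < n := by exact_mod_cast hn
  refine ⟨((n : ℝ) ^ 3) ^ n * B₀ ^ n, by positivity, fun d b D hD => ?_⟩
  let c : (Fin d → ℕ) → (Fin d → Fin (n + 1)) → ℝ := fun m z => ∏ x, L (m x) (z x)
  have hle : ∀ m : Fin d → ℕ, ∑ x, m x = n → ∀ x, m x ≤ n := by
    intro m hm x
    rw [← hm]
    exact Finset.single_le_sum (f := m) (fun _ _ => Nat.zero_le _) (Finset.mem_univ x)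
  have hsupc : ∀ (m : Fin d → ℕ) (z : Fin d → Fin (n + 1)), c m z ≠ 0 →
      ∀ x, z x ≠ 0 → m x ≠ 0 := by
    intro m z hc x hz hm
    apply hc
    apply Finset.prod_eq_zero (Finset.mem_univ x)
    rw [hm, hL0, if_neg hz]
  have hsup2 : ∀ (m : Fin d → ℕ) (z : Fin d → Fin (n + 1)), c m z ≠ 0 →
      sup (fun x => (z x : ℕ)) ≤ sup m := by
    intro m z hc
    apply Finset.card_le_card
    intro x hx
    rw [Finset.mem_filter] at hx ⊢
    refine ⟨Finset.mem_univ x, hsupc m z hc x fun h => hx.2 ?_⟩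
    change (z x : ℕ) = 0
    rw [h]; rfl
  have hsupn : ∀ m : Fin d → ℕ, ∑ x, m x = n → sup m ≤ n := by
    intro m hm
    rw [← hm, sup]
    calc (univ.filter fun x => m x ≠ 0).card = ∑ i ∈ univ.filter fun x => m x ≠ 0, 1 := by simp
      _ ≤ ∑ i ∈ univ.filter fun x => m x ≠ 0, m i := by
          refine Finset.sum_le_sum fun i hi => ?_
          exact Nat.one_le_iff_ne_zero.mpr (Finset.mem_filter.mp hi).2
      _ ≤ ∑ i, m i := Finset.sum_le_sum_of_subset (Finset.filter_subset _ _)
  have hc1 : ∀ (m m' : Fin d → ℕ), ∑ x, m x = n → ∑ x, m' x = n →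
      ∑ z, c m z * ∏ x, ((z x : ℕ) : ℝ) ^ m' x = if m' = m then 1 else 0 := by
    intro m m' hm hm'
    have h1 : ∀ z : Fin d → Fin (n + 1), c m z * ∏ x, ((z x : ℕ) : ℝ) ^ m' x =
        ∏ x, L (m x) (z x) * ((z x : ℕ) : ℝ) ^ m' x := by
      intro z; rw [Finset.prod_mul_distrib]
    simp_rw [h1]
    have h2 := (Finset.prod_univ_sum (fun _ : Fin d => (Finset.univ : Finset (Fin (n + 1))))
      (fun x i => L (m x) i * ((i : ℕ) : ℝ) ^ m' x)).symm
    rw [Fintype.piFinset_univ] at h2
    rw [h2]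
    have h3 : ∀ x, ∑ i, L (m x) i * ((i : ℕ) : ℝ) ^ m' x = if m' x = m x then 1 else 0 :=
      fun x => hL _ (hle m hm x) _ (hle m' hm' x)
    simp_rw [h3]
    split_ifs with h
    · apply Finset.prod_eq_one
      intro x _
      rw [h, if_pos rfl]
    · obtain ⟨x, hx⟩ := Function.ne_iff.mp h
      exact Finset.prod_eq_zero (Finset.mem_univ x) (if_neg hx)
  let W : (Fin d → Fin (n + 1)) → ℝ := fun z => ∑ m : Fin d → Fin (n + 1),
    if ∑ x, (m x : ℕ) = n then D (fun x => m x) * c (fun x => m x) z else 0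
  refine ⟨W, ?_, ?_, ?_⟩
  · intro z hz
    apply Finset.sum_eq_zero
    intro m _
    split_ifs with h
    · by_cases hc : c (fun x => m x) z = 0
      · rw [hc, mul_zero]
      · rw [hD _ h (hz.trans (hsup2 _ z hc)), zero_mul]
    · rfl
  · intro m' hm'
    have h1 : ∀ z, W z * ∏ x, ((z x : ℕ) : ℝ) ^ m' x = ∑ m : Fin d → Fin (n + 1),
        if ∑ x, (m x : ℕ) = n then D (fun x => m x) *
          (c (fun x => m x) z * ∏ x, ((z x : ℕ) : ℝ) ^ m' x) else 0 := by
      intro z
      rw [Finset.sum_mul]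
      refine Finset.sum_congr rfl fun m _ => ?_
      split_ifs <;> ring
    simp_rw [h1]
    rw [Finset.sum_comm]
    have h2 : ∀ m : Fin d → Fin (n + 1), ∑ z, (if ∑ x, (m x : ℕ) = n then D (fun x => m x) *
          (c (fun x => m x) z * ∏ x, ((z x : ℕ) : ℝ) ^ m' x) else 0) =
        if m = (fun x => ⟨m' x, by have := hle m' hm' x; omega⟩) then D m' else 0 := by
      intro m
      by_cases hm : ∑ x, (m x : ℕ) = n
      · simp only [if_pos hm]
        rw [← Finset.mul_sum, hc1 _ m' hm hm']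
        by_cases he : m = (fun x => ⟨m' x, by have := hle m' hm' x; omega⟩)
        · have he' : (fun x => (m x : ℕ)) = m' := by
            rw [he]
          rw [he', if_pos rfl, if_pos he, mul_one]
        · have he' : ¬ (m' = fun x => (m x : ℕ)) := by
            intro h
            apply he
            funext x
            apply Fin.ext
            exact (congrFun h x).symm
          rw [if_neg he', if_neg he, mul_zero]
      · simp only [if_neg hm, Finset.sum_const_zero]
        rw [if_neg]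
        intro h
        apply hm
        rw [h]
        exact hm'
    simp_rw [h2]
    rw [Finset.sum_ite_eq' univ]
    simp
  · have h1 : ∀ z, |W z| * (∑ x, ((z x : ℕ) : ℝ) ^ 2) ^ n ≤ ∑ m : Fin d → Fin (n + 1),
        if ∑ x, (m x : ℕ) = n then |D fun x => m x| *
          (((n : ℝ) ^ 3) ^ n * |c (fun x => m x) z|) else 0 := by
      intro z
      have h2 : |W z| ≤ ∑ m : Fin d → Fin (n + 1),
          if ∑ x, (m x : ℕ) = n then |D fun x => m x| * |c (fun x => m x) z| else 0 := by
        refine (Finset.abs_sum_le_sum_abs _ _).trans (Finset.sum_le_sum fun m _ => ?_)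
        split_ifs
        · rw [abs_mul]
        · simp
      have h0 : (0 : ℝ) ≤ (∑ x, ((z x : ℕ) : ℝ) ^ 2) ^ n := by positivity
      refine (mul_le_mul_of_nonneg_right h2 h0).trans ?_
      rw [Finset.sum_mul]
      refine Finset.sum_le_sum fun m _ => ?_
      split_ifs with hm
      · by_cases hc : c (fun x => m x) z = 0
        · rw [hc]; simp
        · have h3 : ∑ x, ((z x : ℕ) : ℝ) ^ 2 ≤ (n : ℝ) ^ 3 := by
            have h4 : ∑ x, ((z x : ℕ) : ℝ) ^ 2 =
                ∑ x ∈ univ.filter (fun x => (z x : ℕ) ≠ 0), ((z x : ℕ) : ℝ) ^ 2 := by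
              rw [Finset.sum_filter]
              refine Finset.sum_congr rfl fun x _ => ?_
              split_ifs with h
              · rfl
              · push Not at h
                rw [h]; simp
            have h5 : (univ.filter fun x => (z x : ℕ) ≠ 0).card ≤ n :=
              (hsup2 _ z hc).trans (hsupn _ hm)
            rw [h4]
            calc ∑ x ∈ univ.filter (fun x => (z x : ℕ) ≠ 0), ((z x : ℕ) : ℝ) ^ 2
                ≤ ∑ x ∈ univ.filter (fun x => (z x : ℕ) ≠ 0), (n : ℝ) ^ 2 := by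
                  refine Finset.sum_le_sum fun x _ => ?_
                  have : ((z x : ℕ) : ℝ) ≤ n := by exact_mod_cast Nat.lt_succ_iff.mp (z x).2
                  exact pow_le_pow_left₀ (Nat.cast_nonneg _) this 2
              _ = ((univ.filter fun x => (z x : ℕ) ≠ 0).card : ℝ) * (n : ℝ) ^ 2 := by
                  rw [Finset.sum_const, nsmul_eq_mul]
              _ ≤ n * (n : ℝ) ^ 2 := by
                  apply mul_le_mul_of_nonneg_right _ (by positivity)
                  exact_mod_cast h5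
              _ = (n : ℝ) ^ 3 := by ring
          have h6 : (∑ x, ((z x : ℕ) : ℝ) ^ 2) ^ n ≤ ((n : ℝ) ^ 3) ^ n :=
            pow_le_pow_left₀ (by positivity) h3 n
          calc |D fun x => m x| * |c (fun x => m x) z| * (∑ x, ((z x : ℕ) : ℝ) ^ 2) ^ n
              ≤ |D fun x => m x| * |c (fun x => m x) z| * ((n : ℝ) ^ 3) ^ n :=
                mul_le_mul_of_nonneg_left h6 (by positivity)
            _ = _ := by ring
      · simp
    refine (Finset.sum_le_sum fun z _ => h1 z).trans ?_
    rw [Finset.sum_comm, Finset.mul_sum]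
    refine Finset.sum_le_sum fun m _ => ?_
    split_ifs with hm
    · rw [← Finset.mul_sum, ← Finset.mul_sum]
      have h7 : ∑ z, |c (fun x => m x) z| = ∏ x, ∑ i, |L (m x) i| := by
        have h8 : ∀ z : Fin d → Fin (n + 1), |c (fun x => m x) z| = ∏ x, |L (m x) (z x)| := by
          intro z; exact Finset.abs_prod _ _
        simp_rw [h8]
        have h2 := (Finset.prod_univ_sum (fun _ : Fin d => (Finset.univ : Finset (Fin (n + 1))))
          (fun x i => |L (m x) i|)).symm
        rw [Fintype.piFinset_univ] at h2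
        exact h2
      have h9 : ∏ x, ∑ i, |L (m x) i| ≤ B₀ ^ n := by
        have h10 : ∀ x, ∑ i, |L (m x) i| ≤ if (m x : ℕ) ≠ 0 then B₀ else 1 := by
          intro x
          split_ifs with h
          · exact hB₂ _ (Nat.lt_succ_iff.mp (m x).2)
          · push Not at h
            rw [h]
            have h11 : ∀ i, |L 0 i| = if i = 0 then 1 else 0 := by
              intro i
              rw [hL0]
              split_ifs <;> simp
            simp_rw [h11]
            simp
        calc ∏ x, ∑ i, |L (m x) i| ≤ ∏ x, (if (m x : ℕ) ≠ 0 then B₀ else 1) :=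
              Finset.prod_le_prod (fun x _ => Finset.sum_nonneg fun i _ => abs_nonneg _)
                fun x _ => h10 x
          _ = B₀ ^ sup (fun x => (m x : ℕ)) := by
              rw [← Finset.prod_filter, Finset.prod_const, sup]
          _ ≤ B₀ ^ n := pow_le_pow_right₀ hB₁ (hsupn _ hm)
      rw [h7]
      calc |D fun x => m x| * (((n : ℝ) ^ 3) ^ n * ∏ x, ∑ i, |L (m x) i|)
          ≤ |D fun x => m x| * (((n : ℝ) ^ 3) ^ n * B₀ ^ n) := by
            apply mul_le_mul_of_nonneg_left _ (abs_nonneg _)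
            exact mul_le_mul_of_nonneg_left h9 (by positivity)
        _ = _ := by ring
    · simp

end

end Pool.Agent.A2B65
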