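import Pool.Agent.Lib.MP_a2be38_co_h65.Gauss

/-!
# The moments of a spherical design
-/

set_option autoImplicit false

open Finset MeasureTheory Metric

namespace Pool.Agent.A2B65

open Pool.Agent.MP_a2be38_co

theorem gam_succ (j : ℕ) : gam (2 * (j + 1)) = (2 * j + 1) * gam (2 * j) := by
  rw [gam, if_pos (even_two_mul _), gam, if_pos (even_two_mul _)]
  rcases Nat.eq_zero_or_pos j with rfl | hj
  · simp
  · have e1 : 2 * (j + 1) - 1 = (2 * j - 1) + 2 := by omega
    rw [e1, Nat.doubleFactorial_add_two]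
    have e2 : 2 * j - 1 + 2 = 2 * j + 1 := by omega
    rw [e2]
    push_cast
    ring

section

variable {d N : ℕ}

/-- monomial moments of degree `2 j` -/
theorem moments_aux {j : ℕ} (x : Fin N → Fin d → ℝ) (w : Fin N → ℝ) (lam : ℝ)
    (h : ∀ g : Fin d → ℝ, ∑ i, w i * (∑ l, g l * x i l) ^ (2 * j) = lam * (∑ l, g l ^ 2) ^ j)
    (m : Fin d → ℕ) (hm : ∑ l, m l = 2 * j) :
    ∑ i, w i * ∏ l, x i l ^ m l = lam / gam (2 * j) * ∏ l, gam (m l) := by
  classical
  have hg : gam (2 * j) ≠ 0 := by
    have := one_le_gam (even_two_mul j)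
    positivity
  set Ψ : MvPolynomial (Fin d) ℝ := ∑ k ∈ piAntidiag (univ : Finset (Fin d)) (2 * j),
    MvPolynomial.monomial (Finsupp.equivFunOnFinite.symm k)
      ((Nat.multinomial univ k : ℝ) *
        (∑ i, w i * ∏ l, x i l ^ k l - lam / gam (2 * j) * ∏ l, gam (k l))) with hΨ
  have h0 : Ψ = 0 := by
    apply MvPolynomial.funext
    intro z
    rw [hΨ, map_sum, map_zero]
    have h1 := h z
    have h2 : lam * (∑ l, z l ^ 2) ^ j = lam / gam (2 * j) *
        ∑ m ∈ piAntidiag (univ : Finset (Fin d)) (2 * j), (Nat.multinomial univ m : ℝ) *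
          (∏ x, z x ^ m x) * ∏ x, gam (m x) := by
      rw [gauss_id]
      field_simp
    rw [h2] at h1
    simp_rw [Finset.sum_pow_eq_sum_piAntidiag, Finset.mul_sum] at h1
    rw [Finset.sum_comm, ← sub_eq_zero, ← Finset.sum_sub_distrib] at h1
    rw [← h1]
    apply Finset.sum_congr rfl
    intro k _
    rw [MvPolynomial.eval_monomial, Finsupp.prod_fintype _ _ (fun i => by simp)]
    have e : (∏ i, z i ^ (Finsupp.equivFunOnFinite.symm k) i) = ∏ j, z j ^ k j := rfl
    rw [e]
    have e2 : ∀ i, w i * ((Nat.multinomial univ k : ℝ) * ∏ l, (z l * x i l) ^ k l) =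
        ((Nat.multinomial univ k : ℝ) * (∏ l, z l ^ k l)) * (w i * ∏ l, x i l ^ k l) := by
      intro i
      simp_rw [mul_pow]
      rw [Finset.prod_mul_distrib]
      ring
    simp_rw [e2, ← Finset.mul_sum]
    ring
  have hk : m ∈ piAntidiag (univ : Finset (Fin d)) (2 * j) := by
    rw [mem_piAntidiag]; exact ⟨hm, fun i _ => Finset.mem_univ i⟩
  have h2 : MvPolynomial.coeff (Finsupp.equivFunOnFinite.symm m) Ψ = 0 := by rw [h0]; simp
  rw [hΨ, MvPolynomial.coeff_sum, Finset.sum_eq_single m] at h2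
  · rw [MvPolynomial.coeff_monomial, if_pos rfl] at h2
    have hm : (Nat.multinomial univ m : ℝ) ≠ 0 := by
      exact_mod_cast (Nat.multinomial_pos _ _).ne'
    have h3 := (mul_eq_zero.1 h2).resolve_left hm
    linarith
  · intro k _ hk'
    rw [MvPolynomial.coeff_monomial, if_neg]
    intro h'
    exact hk' (Finsupp.equivFunOnFinite.symm.injective h')
  · intro h'; exact absurd hk h'

/-- all even moments of a design of strength `2 t` -/
theorem exists_moments (hd : 1 ≤ d) {t : ℕ} (x : Fin N → Sp d) (w : Fin N → ℝ)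
    (h : ∀ p : MvPolynomial (Fin d) ℝ, p.totalDegree ≤ 2 * t →
        ∑ i, w i * MvPolynomial.eval (fun j => WithLp.ofLp (x i : Eu d) j) p
          = ∫ y, MvPolynomial.eval (fun j => WithLp.ofLp (y : Eu d) j) p ∂(mu d)) :
    ∃ c : ℕ → ℝ, c 0 = ∑ i, w i ∧ (∀ j < t, c (j + 1) * (d + 2 * j) = c j) ∧
      ∀ j ≤ t, ∀ m : Fin d → ℕ, ∑ l, m l = 2 * j →
        ∑ i, w i * ∏ l, (WithLp.ofLp (x i : Eu d) l) ^ m l = c j * ∏ l, gam (m l) := by
  classical
  have hex : ∀ j, ∃ c : ℝ, (j = 0 → c = ∑ i, w i) ∧ (j ≤ t → ∀ m : Fin d → ℕ,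
      ∑ l, m l = 2 * j →
        ∑ i, w i * ∏ l, (WithLp.ofLp (x i : Eu d) l) ^ m l = c * ∏ l, gam (m l)) := by
    intro j
    rcases Nat.eq_zero_or_pos j with rfl | hj
    · refine ⟨∑ i, w i, fun _ => rfl, fun _ m hm => ?_⟩
      have hm0 : ∀ l, m l = 0 := by
        intro l
        have := Finset.single_le_sum (f := m) (fun _ _ => Nat.zero_le _) (Finset.mem_univ l)
        omega
      simp [hm0, gam_zero]
    · by_cases hjt : j ≤ t
      · obtain ⟨lam, hl⟩ := exists_lambda hd j hj
        refine ⟨lam / gam (2 * j), fun h0 => absurd h0 hj.ne', fun _ m hm => ?_⟩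
        refine moments_aux (fun i l => WithLp.ofLp (x i : Eu d) l) w lam ?_ m hm
        intro g
        have h1 := h ((∑ l, MvPolynomial.C (g l) * MvPolynomial.X l) ^ (2 * j)) (by
          refine (MvPolynomial.totalDegree_pow _ _).trans ?_
          have h2 : (∑ l, MvPolynomial.C (g l) * MvPolynomial.X l :
              MvPolynomial (Fin d) ℝ).totalDegree ≤ 1 := by
            refine MvPolynomial.totalDegree_finsetSum_le fun l _ => ?_
            refine (MvPolynomial.totalDegree_mul _ _).trans ?_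
            rw [MvPolynomial.totalDegree_C, zero_add, MvPolynomial.totalDegree_X]
          calc 2 * j * _ ≤ 2 * j * 1 := Nat.mul_le_mul_left _ h2
            _ ≤ 2 * t := by omega)
        have h3 : ∀ y : Eu d, MvPolynomial.eval (fun j => WithLp.ofLp y j)
            ((∑ l, MvPolynomial.C (g l) * MvPolynomial.X l) ^ (2 * j)) =
            (∑ l, g l * WithLp.ofLp y l) ^ (2 * j) := by
          intro y
          simp
        simp_rw [h3] at h1
        rw [h1]
        have h4 := hl (WithLp.toLp 2 g)
        have h5 : ∀ y : Eu d, inner ℝ y (WithLp.toLp 2 g : Eu d) = ∑ l, g l * WithLp.ofLp y l := by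
          intro y
          rw [PiLp.inner_apply]
          refine Finset.sum_congr rfl fun l _ => ?_
          simp
        simp_rw [h5] at h4
        rw [h4, pow_mul, EuclideanSpace.real_norm_sq_eq]
      · exact ⟨0, fun h0 => absurd h0 hj.ne', fun h0 => absurd h0 hjt⟩
  choose c hc0 hc using hex
  refine ⟨c, hc0 0 rfl, ?_, hc⟩
  intro j hj
  have l₀ : Fin d := ⟨0, hd⟩
  have h1 := hc j hj.le (fun l => if l = l₀ then 2 * j else 0) (by
    rw [Finset.sum_ite_eq' univ l₀]; simp)
  have h2 : ∀ l : Fin d, ∑ i, w i * ∏ l', (WithLp.ofLp (x i : Eu d) l') ^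
      ((if l' = l₀ then 2 * j else 0) + if l' = l then 2 else 0) =
      c (j + 1) * (if l = l₀ then gam (2 * (j + 1)) else gam (2 * j)) := by
    intro l
    rw [hc (j + 1) (by omega) (fun l' => (if l' = l₀ then 2 * j else 0) + if l' = l then 2 else 0)
      (by
        rw [Finset.sum_add_distrib, Finset.sum_ite_eq' univ l₀, Finset.sum_ite_eq' univ l]
        simp
        ring)]
    congr 1
    by_cases hl : l = l₀
    · subst hl
      rw [if_pos rfl, Finset.prod_eq_single l]
      · simp only [if_true]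
        congr 1
      · intro b _ hb
        rw [if_neg hb, if_neg hb]
        exact gam_zero
      · intro h0; exact absurd (Finset.mem_univ _) h0
    · rw [if_neg hl, ← Finset.mul_prod_erase univ _ (Finset.mem_univ l₀),
        Finset.prod_eq_one]
      · rw [if_pos rfl, if_neg (fun h0 => hl h0.symm)]
        simp
      · intro l' hl'
        rw [if_neg (Finset.mem_erase.mp hl').1]
        split_ifs
        · exact gam_two
        · exact gam_zero
  have h3 : ∑ l : Fin d, ∑ i, w i * ∏ l', (WithLp.ofLp (x i : Eu d) l') ^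
      ((if l' = l₀ then 2 * j else 0) + if l' = l then 2 else 0) =
      ∑ i, w i * ∏ l', (WithLp.ofLp (x i : Eu d) l') ^ (if l' = l₀ then 2 * j else 0) := by
    rw [Finset.sum_comm]
    refine Finset.sum_congr rfl fun i _ => ?_
    have h4 : ∀ l : Fin d, w i * ∏ l', (WithLp.ofLp (x i : Eu d) l') ^
        ((if l' = l₀ then 2 * j else 0) + if l' = l then 2 else 0) =
        (w i * ∏ l', (WithLp.ofLp (x i : Eu d) l') ^ (if l' = l₀ then 2 * j else 0)) *
          (WithLp.ofLp (x i : Eu d) l) ^ 2 := by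
      intro l
      simp_rw [pow_add]
      rw [Finset.prod_mul_distrib]
      have h5 : ∏ l', (WithLp.ofLp (x i : Eu d) l') ^ (if l' = l then 2 else 0) =
          (WithLp.ofLp (x i : Eu d) l) ^ 2 := by
        rw [Finset.prod_eq_single l]
        · simp
        · intro b _ hb
          rw [if_neg hb, pow_zero]
        · intro h0; exact absurd (Finset.mem_univ _) h0
      rw [h5]
      ring
    simp_rw [h4]
    rw [← Finset.mul_sum]
    have h6 : ∑ l, (WithLp.ofLp (x i : Eu d) l) ^ 2 = 1 := by
      have h := (x i).2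
      rw [mem_sphere_zero_iff_norm] at h
      have h2 := EuclideanSpace.real_norm_sq_eq (x i : Eu d)
      rw [h] at h2
      rw [← h2]; norm_num
    rw [h6, mul_one]
  simp_rw [h2] at h3
  rw [h1, ← Finset.mul_sum] at h3
  have h7 : ∏ l, gam (if l = l₀ then 2 * j else 0) = gam (2 * j) := by
    rw [Finset.prod_eq_single l₀]
    · simp
    · intro b _ hb
      rw [if_neg hb]; exact gam_zero
    · intro h0; exact absurd (Finset.mem_univ _) h0
  have h8 : ∑ l : Fin d, (if l = l₀ then gam (2 * (j + 1)) else gam (2 * j)) =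
      (d + 2 * j) * gam (2 * j) := by
    have : ∀ l : Fin d, (if l = l₀ then gam (2 * (j + 1)) else gam (2 * j)) =
        gam (2 * j) + if l = l₀ then 2 * j * gam (2 * j) else 0 := by
      intro l
      split_ifs
      · rw [gam_succ]; ring
      · ring
    simp_rw [this]
    rw [Finset.sum_add_distrib, Finset.sum_ite_eq' univ l₀]
    simp
    ring
  rw [h7, h8] at h3
  have hg : gam (2 * j) ≠ 0 := by
    have := one_le_gam (even_two_mul j)
    positivity
  have h9 : (c (j + 1) * (d + 2 * j)) * gam (2 * j) = c j * gam (2 * j) := by linarith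
  exact mul_right_cancel₀ hg h9

end

end Pool.Agent.A2B65
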