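import Pool.Agent.Lib.MP_a2be38_co_h65.Jump
import Pool.Agent.Lib.MP_a2be38_co_h65.Local
import Pool.Agent.Lib.MP_a2be38_co_h65.Gauss

/-!
# The deficits of the boosted sign vectors
-/

set_option autoImplicit false

open Finset

namespace Pool.Agent.A2B65

/-- the jump height -/
theorem exists_height (t q : ℕ) (ht : 1 ≤ t) (hq : 2 ≤ q) : ∃ Λ : ℝ, 1 ≤ Λ ∧
    Λ ^ 2 + (4 - 2 * (t : ℝ)) * Λ = 2 * q ∧ Λ ≤ (2 * t + 2) * Real.sqrt q := by
  have ht' : (1 : ℝ) ≤ t := by exact_mod_cast ht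
  have hq' : (2 : ℝ) ≤ q := by exact_mod_cast hq
  set δ : ℝ := (t : ℝ) - 2 with hδ
  have hsq : Real.sqrt (δ ^ 2 + 2 * q) ^ 2 = δ ^ 2 + 2 * q := Real.sq_sqrt (by positivity)
  have h1 : 1 - δ ≤ Real.sqrt (δ ^ 2 + 2 * q) :=
    (le_abs_self _).trans (Real.abs_le_sqrt (by rw [hδ]; nlinarith))
  have heq : (δ + Real.sqrt (δ ^ 2 + 2 * q)) ^ 2 + (4 - 2 * (t : ℝ)) *
      (δ + Real.sqrt (δ ^ 2 + 2 * q)) = 2 * q := by
    have : (4 - 2 * (t : ℝ)) = - 2 * δ := by rw [hδ]; ring
    rw [this]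
    nlinarith
  refine ⟨δ + Real.sqrt (δ ^ 2 + 2 * q), by linarith, heq, ?_⟩
  set Λ := δ + Real.sqrt (δ ^ 2 + 2 * q) with hΛ
  have hΛ1 : 1 ≤ Λ := by rw [hΛ]; linarith
  set R := Real.sqrt (q : ℝ) with hR
  have hRsq : R ^ 2 = q := Real.sq_sqrt (by positivity)
  have hR1 : 1 ≤ R := by rw [hR]; exact Real.one_le_sqrt.mpr (by linarith)
  by_contra hcon
  push Not at hcon
  have h2 : R ≤ Λ := by nlinarith
  have h3 : Λ ^ 2 ≤ (2 * t + 2) * R * Λ := by
    have e1 : Λ ^ 2 = 2 * R ^ 2 + (2 * t - 4) * Λ := by rw [hRsq]; linarith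
    have e2 : R ^ 2 ≤ R * Λ := by nlinarith
    have e3 : (2 * (t : ℝ) - 4) * Λ ≤ 2 * t * (R * Λ) := by
      have : Λ ≤ R * Λ := by nlinarith
      nlinarith
    nlinarith
  have h4 : (2 * t + 2) * R * Λ < Λ * Λ := mul_lt_mul_of_pos_right hcon (by linarith)
  nlinarith

section

variable {d : ℕ}

/-- sums over the support -/
theorem sum_excess (m : Fin d → ℕ) : ∑ x, m x = ∑ x, (m x - 2) + ∑ x, min (m x) 2 := by
  rw [← Finset.sum_add_distrib]
  refine Finset.sum_congr rfl fun x _ => ?_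
  omega

theorem sum_min (m : Fin d → ℕ) (hev : ∀ x, Even (m x)) : ∑ x, min (m x) 2 = 2 * sup m := by
  rw [sup, Finset.card_filter, Finset.mul_sum]
  refine Finset.sum_congr rfl fun x _ => ?_
  obtain ⟨k, hk⟩ := hev x
  split_ifs with h
  · omega
  · push Not at h
    rw [h]; simp

/-- exactness for the types with at least `t - 1` coordinates -/
theorem types_exact {t : ℕ} (m : Fin d → ℕ) (hm : ∑ x, m x = 2 * t)
    (hev : ∀ x, Even (m x)) (hs : t ≤ sup m + 1) {q Λ r : ℝ} (hr : r ^ 2 = Λ)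
    (hΛ : Λ ^ 2 + (4 - 2 * (t : ℝ)) * Λ = 2 * q) :
    q + ∑ x, J r (m x) = (q + t * Λ) * ∏ x, gam (m x) := by
  classical
  have h1 := sum_excess m
  rw [sum_min m hev, hm] at h1
  have hexc : ∑ x, (m x - 2) ≤ 2 := by omega
  have hsumR : ∑ x, (m x : ℝ) / 2 * Λ = t * Λ := by
    rw [← Finset.sum_mul, ← Finset.sum_div]
    have : ∑ x, (m x : ℝ) = 2 * t := by exact_mod_cast hm
    rw [this]
    ring
  by_cases hall : ∀ x, m x ≤ 2
  · have hx : ∀ x, m x = 0 ∨ m x = 2 := by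
      intro x
      have := hall x
      obtain ⟨k, hk⟩ := hev x
      omega
    have hJ : ∀ x, J r (m x) = (m x : ℝ) / 2 * Λ := by
      intro x
      rcases hx x with h | h
      · rw [h, J_zero]; simp
      · rw [h, J_two, hr]; push_cast; ring
    have hg : ∏ x, gam (m x) = 1 := by
      apply Finset.prod_eq_one
      intro x _
      rcases hx x with h | h
      · rw [h, gam_zero]
      · rw [h, gam_two]
    simp_rw [hJ]
    rw [hsumR, hg, mul_one]
  · push Not at hall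
    obtain ⟨x₀, hx₀⟩ := hall
    have h4 : m x₀ - 2 ≤ 2 := by
      refine le_trans ?_ hexc
      exact Finset.single_le_sum (f := fun x => m x - 2) (fun _ _ => Nat.zero_le _)
        (Finset.mem_univ x₀)
    have hx₀' : m x₀ = 4 := by
      obtain ⟨k, hk⟩ := hev x₀
      omega
    have hx : ∀ x, x ≠ x₀ → m x = 0 ∨ m x = 2 := by
      intro x hne
      have h5 : (m x₀ - 2) + (m x - 2) ≤ 2 := by
        refine le_trans ?_ hexc
        rw [← Finset.sum_pair (f := fun x => m x - 2) hne.symm]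
        exact Finset.sum_le_sum_of_subset (Finset.subset_univ _)
      obtain ⟨k, hk⟩ := hev x
      omega
    have hJ : ∀ x, J r (m x) = (m x : ℝ) / 2 * Λ + if x = x₀ then 4 * Λ + Λ ^ 2 else 0 := by
      intro x
      split_ifs with h
      · rw [h, hx₀', J_four, hr]; push_cast; ring
      · rcases hx x h with h | h
        · rw [h, J_zero]; simp
        · rw [h, J_two, hr]; push_cast; ring
    have hg : ∏ x, gam (m x) = 3 := by
      rw [← Finset.mul_prod_erase univ _ (Finset.mem_univ x₀), hx₀', gam_four]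
      rw [Finset.prod_eq_one, mul_one]
      intro x hxe
      rcases hx x (Finset.mem_erase.mp hxe).1 with h | h
      · rw [h, gam_zero]
      · rw [h, gam_two]
    simp_rw [hJ]
    rw [Finset.sum_add_distrib, hsumR, Finset.sum_ite_eq' univ x₀ fun _ => 4 * Λ + Λ ^ 2,
      if_pos (Finset.mem_univ _), hg]
    linear_combination hΛ

theorem gam_le_factorial (n : ℕ) : gam n ≤ (n.factorial : ℝ) := by
  by_cases h : Even n
  · obtain ⟨k, hk⟩ := h
    have hk' : n = 2 * k := by omega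
    subst hk'
    rw [fac_two]
    have h1 : (1 : ℝ) ≤ 2 ^ k * (k.factorial : ℝ) := by
      have e1 : (1 : ℝ) ≤ 2 ^ k := one_le_pow₀ (by norm_num)
      have e2 : (1 : ℝ) ≤ (k.factorial : ℝ) := by exact_mod_cast Nat.factorial_pos k
      nlinarith
    have h2 := gam_nonneg (2 * k)
    nlinarith
  · rw [gam_odd h]
    positivity

theorem prod_gam_le (m : Fin d → ℕ) : ∏ x, gam (m x) ≤ ((∑ x, m x).factorial : ℝ) := by
  calc ∏ x, gam (m x) ≤ ∏ x, ((m x).factorial : ℝ) :=
        Finset.prod_le_prod (fun x _ => gam_nonneg _) fun x _ => gam_le_factorial _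
    _ ≤ ((∑ x, m x).factorial : ℝ) := by
        have h := Nat.prod_factorial_dvd_factorial_sum (univ : Finset (Fin d)) m
        have h2 := Nat.le_of_dvd (Nat.factorial_pos _) h
        exact_mod_cast h2

/-- bound for the boosted part -/
theorem sum_J_le {t : ℕ} (m : Fin d → ℕ) (hm : ∑ x, m x = 2 * t)
    (hev : ∀ x, Even (m x)) {q Λ r : ℝ} (hr1 : 1 ≤ r) (hr : r ^ 2 = Λ) (hq : 1 ≤ q)
    (hΛ : Λ ≤ (2 * t + 2) * Real.sqrt q) :
    |∑ x, J r (m x)| ≤ t * (8 * t + 8) ^ (t + 1) * Real.sqrt q ^ (t + 1 - sup m) := by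
  classical
  set R := Real.sqrt q with hR
  have hR1 : 1 ≤ R := by rw [hR]; exact Real.one_le_sqrt.mpr hq
  have ht0 : (0 : ℝ) ≤ t := Nat.cast_nonneg t
  have hΛ0 : 0 ≤ Λ := by rw [← hr]; positivity
  have h1 := sum_excess m
  have h2 := sum_min m hev
  have hsup : sup m ≤ t := by
    rw [h2] at h1
    omega
  have hx : ∀ x, |J r (m x)| ≤ if m x ≠ 0 then (8 * (t : ℝ) + 8) ^ (t + 1) * R ^ (t + 1 - sup m)
      else 0 := by
    intro x
    obtain ⟨k, hk⟩ := hev x
    have hk' : m x = 2 * k := by omega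
    split_ifs with h
    · have h3 : m x - 2 ≤ ∑ x, (m x - 2) :=
        Finset.single_le_sum (f := fun x => m x - 2) (fun _ _ => Nat.zero_le _) (Finset.mem_univ x)
      have hkt : k ≤ t + 1 - sup m := by
        rw [h2] at h1
        omega
      have h5 : (1 : ℝ) ≤ 8 * t + 8 := by linarith
      calc |J r (m x)| = |J r (2 * k)| := by rw [hk']
        _ ≤ 4 ^ k * (r ^ 2) ^ k := J_le hr1 k
        _ = (4 * Λ) ^ k := by rw [hr, mul_pow]
        _ ≤ ((8 * (t : ℝ) + 8) * R) ^ k := by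
            apply pow_le_pow_left₀ (by positivity)
            calc 4 * Λ ≤ 4 * ((2 * t + 2) * R) := by linarith
              _ = (8 * (t : ℝ) + 8) * R := by ring
        _ = (8 * (t : ℝ) + 8) ^ k * R ^ k := mul_pow _ _ _
        _ ≤ (8 * (t : ℝ) + 8) ^ (t + 1) * R ^ (t + 1 - sup m) := by
            apply mul_le_mul
            · exact pow_le_pow_right₀ h5 (by omega)
            · exact pow_le_pow_right₀ hR1 hkt
            · positivity
            · positivity
    · push Not at h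
      rw [h, J_zero]; simp
  calc |∑ x, J r (m x)| ≤ ∑ x, |J r (m x)| := Finset.abs_sum_le_sum_abs _ _
    _ ≤ ∑ x, if m x ≠ 0 then (8 * (t : ℝ) + 8) ^ (t + 1) * R ^ (t + 1 - sup m) else 0 :=
        Finset.sum_le_sum fun x _ => hx x
    _ = (sup m : ℝ) * ((8 * (t : ℝ) + 8) ^ (t + 1) * R ^ (t + 1 - sup m)) := by
        rw [← Finset.sum_filter, Finset.sum_const, nsmul_eq_mul, sup]
    _ ≤ t * ((8 * (t : ℝ) + 8) ^ (t + 1) * R ^ (t + 1 - sup m)) := by
        apply mul_le_mul_of_nonneg_right _ (by positivity)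
        exact_mod_cast hsup
    _ = _ := by ring

end

end Pool.Agent.A2B65
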