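import Pool.Agent.Lib.MP_a2be38_co_h65.Gram
import Pool.Agent.Lib.MP_a2be38_co_h65.Types

/-!
# Points with large fourth powers carry little mass
-/

set_option autoImplicit false

open Finset

namespace Pool.Agent.A2B65

theorem gam_six : gam 6 = 15 := by
  rw [gam, if_pos (by decide)]
  simp [Nat.doubleFactorial]

theorem descFactorial_lower (d s : ℕ) :
    (d : ℝ) ^ (s + 1) ≤ (d.descFactorial (s + 1) : ℝ) + (s + 1) ^ 2 * (d : ℝ) ^ s := by
  induction s with
  | zero => simp
  | succ s ih =>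
    have hd0 : (0 : ℝ) ≤ d := Nat.cast_nonneg d
    rw [Nat.descFactorial_succ]
    rcases Nat.lt_or_ge d (s + 1) with hlt | hge
    · have h1 : (d : ℝ) ≤ (s + 1 : ℕ) := by exact_mod_cast hlt.le
      have h2 : (0 : ℝ) ≤ (((d - (s + 1)) * d.descFactorial (s + 1) : ℕ) : ℝ) := Nat.cast_nonneg _
      have h3 : (d : ℝ) ^ (s + 1 + 1) ≤ ((s + 1 : ℕ) + 1) ^ 2 * (d : ℝ) ^ (s + 1) := by
        rw [pow_succ, mul_comm]
        apply mul_le_mul_of_nonneg_right _ (by positivity)
        push_cast at h1 ⊢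
        nlinarith
      linarith
    · push_cast [Nat.cast_sub hge]
      have h1 : (d.descFactorial (s + 1) : ℝ) ≤ (d : ℝ) ^ (s + 1) := by
        exact_mod_cast Nat.descFactorial_le_pow d (s + 1)
      have h2 : (d : ℝ) ^ (s + 1 + 1) = d * (d : ℝ) ^ (s + 1) := by rw [pow_succ]; ring
      have h3 : d * (d : ℝ) ^ (s + 1) ≤ d * ((d.descFactorial (s + 1) : ℝ) +
          (s + 1) ^ 2 * (d : ℝ) ^ s) := mul_le_mul_of_nonneg_left ih hd0
      have h4 : d * ((s + 1) ^ 2 * (d : ℝ) ^ s) = (s + 1) ^ 2 * (d : ℝ) ^ (s + 1) := by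
        rw [pow_succ]; ring
      have h5 : (0 : ℝ) ≤ (d : ℝ) ^ (s + 1) := by positivity
      have h6 : ((s : ℝ) + 1) * (d.descFactorial (s + 1) : ℝ) ≤ (s + 1) * (d : ℝ) ^ (s + 1) :=
        mul_le_mul_of_nonneg_left h1 (by positivity)
      have h7 : (0 : ℝ) ≤ s * (d : ℝ) ^ (s + 1) := by positivity
      rw [h2]
      nlinarith

variable {d N t : ℕ} {x : Fin N → Fin d → ℝ} {w : Fin N → ℝ} {c : ℕ → ℝ}

/-- the case `s = 1` -/
theorem Dat.sparse_one (h : Dat t x w c) (ht : 3 ≤ t) :
    ∑ i ∈ (univ.filter fun i => ∑ l, x i l ^ 4 < 48 / d)ᶜ, w i * (∑ l, x i l ^ 4) ^ 1 ≤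
      c 2 * d := by
  have hd0 : (0 : ℝ) < d := by exact_mod_cast h.hd
  have h1 : ∀ i, (∑ l, x i l ^ 4) ^ 2 ≤ ∑ l, x i l ^ 6 := by
    intro i
    have h2 := Finset.sum_mul_sq_le_sq_mul_sq univ (fun l => x i l) (fun l => x i l ^ 3)
    rw [h.hx i, one_mul] at h2
    calc (∑ l, x i l ^ 4) ^ 2 = (∑ l, x i l * x i l ^ 3) ^ 2 := by
          congr 1
          exact Finset.sum_congr rfl fun l _ => by ring
      _ ≤ ∑ l, (x i l ^ 3) ^ 2 := h2
      _ = ∑ l, x i l ^ 6 := Finset.sum_congr rfl fun l _ => by ring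
  have h2 : ∀ i ∈ (univ.filter fun i => ∑ l, x i l ^ 4 < 48 / d)ᶜ,
      w i * (∑ l, x i l ^ 4) ^ 1 ≤ (d / 48) * (w i * ∑ l, x i l ^ 6) := by
    intro i hi
    rw [Finset.mem_compl, Finset.mem_filter, not_and] at hi
    have h3 := hi (Finset.mem_univ i)
    push Not at h3
    set X := ∑ l, x i l ^ 4 with hX
    have h4 : 1 ≤ (d / 48) * X := by
      rw [div_le_iff₀ hd0] at h3
      linarith
    have hX0 : 0 ≤ X := Finset.sum_nonneg fun l _ => by positivity
    have h5 : X ≤ (d / 48) * X ^ 2 := by nlinarith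
    rw [pow_one]
    calc w i * X ≤ w i * ((d / 48) * X ^ 2) := mul_le_mul_of_nonneg_left h5 (h.hw i).le
      _ ≤ w i * ((d / 48) * ∑ l, x i l ^ 6) := by
          apply mul_le_mul_of_nonneg_left _ (h.hw i).le
          exact mul_le_mul_of_nonneg_left (h1 i) (by positivity)
      _ = _ := by ring
  have h3 : ∑ i, w i * ∑ l, x i l ^ 6 = 15 * d * c 3 := by
    simp_rw [Finset.mul_sum]
    rw [Finset.sum_comm]
    have h4 : ∀ l : Fin d, ∑ i, w i * x i l ^ 6 = 15 * c 3 := by
      intro l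
      have h5 := h.hm 3 ht (fun l' => if l' = l then 6 else 0) (by
        rw [Finset.sum_ite_eq' univ l]; simp)
      have h6 : ∀ i, ∏ l', x i l' ^ (if l' = l then 6 else 0) = x i l ^ 6 := by
        intro i
        rw [Finset.prod_eq_single l]
        · simp
        · intro b _ hb; rw [if_neg hb, pow_zero]
        · intro h0; exact absurd (Finset.mem_univ _) h0
      simp_rw [h6] at h5
      rw [h5, Finset.prod_eq_single l]
      · rw [if_pos rfl, gam_six]; ring
      · intro b _ hb; rw [if_neg hb, gam_zero]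
      · intro h0; exact absurd (Finset.mem_univ _) h0
    simp_rw [h4]
    rw [Finset.sum_const, Finset.card_univ, Fintype.card_fin, nsmul_eq_mul]
    ring
  have h4 := h.hcs 2 (by omega)
  have h5 := h.c_pos 3 ht
  calc ∑ i ∈ (univ.filter fun i => ∑ l, x i l ^ 4 < 48 / d)ᶜ, w i * (∑ l, x i l ^ 4) ^ 1
      ≤ ∑ i ∈ (univ.filter fun i => ∑ l, x i l ^ 4 < 48 / d)ᶜ,
        (d / 48) * (w i * ∑ l, x i l ^ 6) := Finset.sum_le_sum h2
    _ ≤ ∑ i, (d / 48) * (w i * ∑ l, x i l ^ 6) := by
        apply Finset.sum_le_sum_of_subset_of_nonneg (Finset.subset_univ _)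
        intro i _ _
        have := (h.hw i).le
        have h6 : 0 ≤ ∑ l, x i l ^ 6 := Finset.sum_nonneg fun l _ => by positivity
        positivity
    _ = (d / 48) * (15 * d * c 3) := by rw [← Finset.mul_sum, h3]
    _ ≤ c 2 * d := by
        rw [← h4]
        push_cast
        have h6 : 0 < c 3 * d := mul_pos h5 hd0
        have h7 : 0 < c 3 * d * d := mul_pos h6 hd0
        nlinarith

/-- moments of the fourth powers -/
theorem Dat.fourth (h : Dat t x w c) {s : ℕ} (hs1 : 1 ≤ s) (hs : 2 * s ≤ t) :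
    ∑ i, w i * (∑ l, x i l ^ 4) ^ s ≤
      c (2 * s) * (3 ^ s * (d : ℝ) ^ s + ((4 * s).factorial : ℝ) * s ^ 2 * (d : ℝ) ^ (s - 1)) := by
  classical
  have hc := h.c_pos _ hs
  have h1 : ∀ i, (∑ l, x i l ^ 4) ^ s = ∑ f : Fin s → Fin d, ∏ a, x i (f a) ^ 4 := by
    intro i
    rw [Fintype.sum_pow]
  simp_rw [h1, Finset.mul_sum]
  rw [Finset.sum_comm]
  let m : (Fin s → Fin d) → Fin d → ℕ := fun f l => ∑ a, if f a = l then 4 else 0
  have hmsum : ∀ f, ∑ l, m f l = 2 * (2 * s) := by
    intro f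
    simp only [m]
    rw [Finset.sum_comm]
    have : ∀ a : Fin s, ∑ l, (if f a = l then 4 else 0) = 4 := by
      intro a
      rw [Finset.sum_ite_eq univ (f a)]
      simp
    simp_rw [this]
    simp
    ring
  have h2 : ∀ f : Fin s → Fin d, ∑ i, w i * ∏ a, x i (f a) ^ 4 =
      c (2 * s) * ∏ l, gam (m f l) := by
    intro f
    rw [← h.hm (2 * s) hs (m f) (hmsum f)]
    refine Finset.sum_congr rfl fun i _ => ?_
    congr 1
    simp only [m]
    simp_rw [← Finset.prod_pow_eq_pow_sum]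
    rw [Finset.prod_comm]
    refine Finset.prod_congr rfl fun a _ => ?_
    rw [Finset.prod_eq_single (f a)]
    · simp
    · intro b _ hb
      rw [if_neg (Ne.symm hb), pow_zero]
    · intro h0; exact absurd (Finset.mem_univ _) h0
  simp_rw [h2]
  rw [← Finset.mul_sum]
  apply mul_le_mul_of_nonneg_left _ hc.le
  have h3 : ∀ f : Fin s → Fin d, ∏ l, gam (m f l) ≤
      3 ^ s + if Function.Injective f then 0 else ((4 * s).factorial : ℝ) := by
    intro f
    split_ifs with hf
    · rw [add_zero]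
      have h4 : ∀ l, gam (m f l) = if l ∈ univ.image f then 3 else 1 := by
        intro l
        split_ifs with hl
        · rw [Finset.mem_image] at hl
          obtain ⟨a, _, rfl⟩ := hl
          have : m f (f a) = 4 := by
            simp only [m]
            rw [Finset.sum_eq_single a]
            · simp
            · intro b _ hb
              rw [if_neg (fun h0 => hb (hf h0))]
            · intro h0; exact absurd (Finset.mem_univ _) h0
          rw [this, gam_four]
        · have : m f l = 0 := by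
            simp only [m]
            apply Finset.sum_eq_zero
            intro a _
            rw [if_neg]
            intro h0
            exact hl (Finset.mem_image.mpr ⟨a, Finset.mem_univ a, h0⟩)
          rw [this, gam_zero]
      simp_rw [h4]
      rw [Finset.prod_ite_mem, Finset.univ_inter, Finset.prod_const,
        Finset.card_image_of_injective _ hf, Finset.card_univ, Fintype.card_fin]
    · have h4 := prod_gam_le (m f)
      rw [hmsum f, show 2 * (2 * s) = 4 * s by ring] at h4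
      have : (0 : ℝ) ≤ 3 ^ s := by positivity
      linarith
  refine (Finset.sum_le_sum fun f _ => h3 f).trans ?_
  rw [Finset.sum_add_distrib, Finset.sum_const, Finset.card_univ, Fintype.card_fun,
    Fintype.card_fin, Fintype.card_fin, nsmul_eq_mul]
  push_cast
  have h5 : ∑ f : Fin s → Fin d, (if Function.Injective f then (0 : ℝ)
      else ((4 * s).factorial : ℝ)) = ((4 * s).factorial : ℝ) *
        ((d : ℝ) ^ s - (d.descFactorial s : ℝ)) := by
    have h6 : ∀ f : Fin s → Fin d, (if Function.Injective f then (0 : ℝ)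
      else ((4 * s).factorial : ℝ)) = ((4 * s).factorial : ℝ) -
        (if Function.Injective f then ((4 * s).factorial : ℝ) else 0) := by
      intro f; split_ifs <;> ring
    simp_rw [h6]
    rw [Finset.sum_sub_distrib, ← Finset.sum_filter, Finset.sum_const, Finset.sum_const,
      Finset.card_univ, Fintype.card_fun, Fintype.card_fin, Fintype.card_fin, nsmul_eq_mul,
      nsmul_eq_mul]
    have h7 : (univ.filter fun f : Fin s → Fin d => Function.Injective f).card =
        d.descFactorial s := by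
      rw [← Fintype.card_subtype, Fintype.card_congr (Equiv.subtypeInjectiveEquivEmbedding _ _),
        Fintype.card_embedding_eq, Fintype.card_fin, Fintype.card_fin]
    rw [h7]
    push_cast
    ring
  rw [h5]
  obtain ⟨s', rfl⟩ : ∃ s', s = s' + 1 := ⟨s - 1, by omega⟩
  have h8 := descFactorial_lower d s'
  have h9 : (0 : ℝ) ≤ ((4 * (s' + 1)).factorial : ℝ) := Nat.cast_nonneg _
  have h10 : (d : ℝ) ^ (s' + 1) - (d.descFactorial (s' + 1) : ℝ) ≤
      (s' + 1) ^ 2 * (d : ℝ) ^ s' := by linarith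
  have h11 := mul_le_mul_of_nonneg_left h10 h9
  simp only [Nat.add_sub_cancel]
  push_cast
  nlinarith

/-- the case `s ≥ 2` -/
theorem Dat.sparse_two (h : Dat t x w c) {s : ℕ} (hs2 : 2 ≤ s) (hs : 2 * s ≤ t) :
    ∑ i ∈ (univ.filter fun i => ∑ l, x i l ^ 4 < 48 / d)ᶜ, w i * (∑ l, x i l ^ 4) ^ s ≤
      c (2 * s) * (2 * (((4 * s).factorial : ℝ) * s ^ 2 + 2 * s * 3 ^ s * (1 + 2 * t) ^ (2 * s)) *
        (d : ℝ) ^ (s - 1)) := by
  have hd0 : (0 : ℝ) < d := by exact_mod_cast h.hd
  have hd1 : (1 : ℝ) ≤ d := by exact_mod_cast h.hd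
  have hc := h.c_pos _ hs
  have hs0 : (0 : ℝ) < s := by exact_mod_cast (by omega : 0 < s)
  have hs1 : (1 : ℝ) ≤ s := by exact_mod_cast (by omega : 1 ≤ s)
  have ht0 : (0 : ℝ) ≤ t := Nat.cast_nonneg t
  set p : ℝ := 3 / d with hp
  have hp0 : 0 < p := by positivity
  set M := ∑ i, w i with hM
  let H : ℝ → ℝ := fun X => X ^ s - s * p ^ (s - 1) * X + (s - 1) * p ^ s
  obtain ⟨s', hs'⟩ : ∃ s', s = s' + 1 := ⟨s - 1, by omega⟩
  have hps : p ^ s = p ^ (s - 1) * p := by rw [hs', Nat.add_sub_cancel, pow_succ]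
  have hXs : ∀ X : ℝ, X ^ s = X ^ (s - 1) * X := by
    intro X; rw [hs', Nat.add_sub_cancel, pow_succ]
  have hH0 : ∀ X : ℝ, 0 ≤ X → 0 ≤ H X := by
    intro X hX
    have h1 : (-2 : ℝ) ≤ X / p - 1 := by
      have : 0 ≤ X / p := by positivity
      linarith
    have h2 := one_add_mul_le_pow h1 s
    rw [show (1 : ℝ) + (X / p - 1) = X / p by ring] at h2
    have h3 := mul_le_mul_of_nonneg_right h2 (by positivity : 0 ≤ p ^ s)
    rw [← mul_pow (X / p) p s, div_mul_cancel₀ _ hp0.ne'] at h3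
    have h4 : (1 + (s : ℝ) * (X / p - 1)) * p ^ s = s * p ^ (s - 1) * X - (s - 1) * p ^ s := by
      rw [hps]
      field_simp
      ring
    rw [h4] at h3
    simp only [H]
    linarith
  have hH1 : ∀ X : ℝ, 48 / d ≤ X → X ^ s ≤ 2 * H X := by
    intro X hX
    have hX16 : 16 * p ≤ X := by
      calc 16 * p = 48 / d := by rw [hp]; ring
        _ ≤ X := hX
    have hX0 : 0 < X := by linarith
    have h1 : 2 * (s : ℝ) * p ^ (s - 1) ≤ X ^ (s - 1) := by
      have h2 : (16 * p) ^ (s - 1) ≤ X ^ (s - 1) := pow_le_pow_left₀ (by positivity) hX16 _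
      refine le_trans ?_ h2
      rw [mul_pow]
      apply mul_le_mul_of_nonneg_right _ (by positivity)
      have h3 := one_add_mul_le_pow (by norm_num : (-2 : ℝ) ≤ 15) (s - 1)
      rw [show (1 : ℝ) + 15 = 16 by norm_num] at h3
      refine le_trans ?_ h3
      rw [hs', Nat.add_sub_cancel]
      have : (1 : ℝ) ≤ s' := by exact_mod_cast (by omega : 1 ≤ s')
      push_cast
      linarith
    have h4 : 2 * (s : ℝ) * p ^ (s - 1) * X ≤ X ^ s := by
      rw [hXs]
      exact mul_le_mul_of_nonneg_right h1 hX0.le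
    have h5 : 0 ≤ (s - 1) * p ^ s := mul_nonneg (by linarith) (by positivity)
    simp only [H]
    linarith
  -- the first moment
  have hX1 : ∑ i, w i * ∑ l, x i l ^ 4 = 3 * d * c 2 := by
    simp_rw [Finset.mul_sum]
    rw [Finset.sum_comm]
    have h4 : ∀ l : Fin d, ∑ i, w i * x i l ^ 4 = 3 * c 2 := by
      intro l
      have h5 := h.hm 2 (by omega) (fun l' => if l' = l then 4 else 0) (by
        rw [Finset.sum_ite_eq' univ l]; simp)
      have h6 : ∀ i, ∏ l', x i l' ^ (if l' = l then 4 else 0) = x i l ^ 4 := by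
        intro i
        rw [Finset.prod_eq_single l]
        · simp
        · intro b _ hb; rw [if_neg hb, pow_zero]
        · intro h0; exact absurd (Finset.mem_univ _) h0
      simp_rw [h6] at h5
      rw [h5, Finset.prod_eq_single l]
      · rw [if_pos rfl, gam_four]; ring
      · intro b _ hb; rw [if_neg hb, gam_zero]
      · intro h0; exact absurd (Finset.mem_univ _) h0
    simp_rw [h4]
    rw [Finset.sum_const, Finset.card_univ, Fintype.card_fin, nsmul_eq_mul]
    ring
  have hM1 : M = c 2 * (d + 2) * d := by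
    have e1 : c 1 * d = M := by
      have := h.hcs 0 (by omega)
      rw [h.hc0, ← hM] at this
      simpa using this
    have e2 : c 1 = c 2 * (d + 2) := by
      have := h.hcs 1 (by omega)
      norm_num at this
      exact this.symm
    rw [← e1, e2]
  have hM0 : 0 < M := h.hM
  have hfirst : ∑ i, w i * ∑ l, x i l ^ 4 = p * M - 2 * p * M / (d + 2) := by
    rw [hX1, hM1, hp]
    field_simp
    ring
  obtain ⟨hlow, hup⟩ := h.c_bounds (2 * s) hs
  rw [← hM] at hlow hup
  have hpM : c (2 * s) * (3 ^ s * (d : ℝ) ^ s) ≤ p ^ s * M := by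
    calc c (2 * s) * (3 ^ s * (d : ℝ) ^ s) = p ^ s * (c (2 * s) * (d : ℝ) ^ (2 * s)) := by
          rw [hp, div_pow, two_mul s, pow_add]
          field_simp
      _ ≤ p ^ s * M := mul_le_mul_of_nonneg_left hlow (by positivity)
  have hpM2 : p ^ s * M / (d + 2) ≤
      c (2 * s) * (3 ^ s * (1 + 2 * t) ^ (2 * s) * (d : ℝ) ^ (s - 1)) := by
    have h1 : M ≤ c (2 * s) * ((1 + 2 * t) * d) ^ (2 * s) := by
      refine hup.trans ?_
      apply mul_le_mul_of_nonneg_left _ hc.le
      apply pow_le_pow_left₀ (by positivity)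
      nlinarith
    have h2 : p ^ s * M / (d + 2) ≤ p ^ s * M / d := by
      apply div_le_div_of_nonneg_left (by positivity) hd0
      linarith
    refine h2.trans ?_
    rw [div_le_iff₀ hd0]
    calc p ^ s * M ≤ p ^ s * (c (2 * s) * ((1 + 2 * t) * d) ^ (2 * s)) :=
          mul_le_mul_of_nonneg_left h1 (by positivity)
      _ = c (2 * s) * (3 ^ s * (1 + 2 * t) ^ (2 * s) * (d : ℝ) ^ s) := by
          rw [hp, div_pow, mul_pow, two_mul s, pow_add (d : ℝ)]
          field_simp
      _ = c (2 * s) * (3 ^ s * (1 + 2 * t) ^ (2 * s) * (d : ℝ) ^ (s - 1)) * d := by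
          rw [hXs (d : ℝ)]; ring
  have hEH : ∑ i, w i * H (∑ l, x i l ^ 4) ≤ c (2 * s) *
      ((((4 * s).factorial : ℝ) * s ^ 2 + 2 * s * 3 ^ s * (1 + 2 * t) ^ (2 * s)) *
        (d : ℝ) ^ (s - 1)) := by
    have h1 : ∑ i, w i * H (∑ l, x i l ^ 4) = ∑ i, w i * (∑ l, x i l ^ 4) ^ s -
        s * p ^ (s - 1) * ∑ i, w i * ∑ l, x i l ^ 4 + (s - 1) * p ^ s * M := by
      rw [Finset.mul_sum, hM, Finset.mul_sum, ← Finset.sum_sub_distrib, ← Finset.sum_add_distrib]
      refine Finset.sum_congr rfl fun i _ => ?_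
      simp only [H]
      ring
    have h2 := h.fourth (by omega) hs
    rw [h1, hfirst]
    have h3 : s * p ^ (s - 1) * (p * M - 2 * p * M / (d + 2)) =
        s * (p ^ s * M) - 2 * s * (p ^ s * M / (d + 2)) := by
      rw [hps]; ring
    rw [h3]
    have h4 := mul_le_mul_of_nonneg_left hpM2 (by positivity : 0 ≤ 2 * (s : ℝ))
    nlinarith
  calc ∑ i ∈ (univ.filter fun i => ∑ l, x i l ^ 4 < 48 / d)ᶜ, w i * (∑ l, x i l ^ 4) ^ s
      ≤ ∑ i ∈ (univ.filter fun i => ∑ l, x i l ^ 4 < 48 / d)ᶜ,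
        2 * (w i * H (∑ l, x i l ^ 4)) := by
        refine Finset.sum_le_sum fun i hi => ?_
        rw [Finset.mem_compl, Finset.mem_filter, not_and] at hi
        have h3 := hi (Finset.mem_univ i)
        push Not at h3
        calc w i * (∑ l, x i l ^ 4) ^ s ≤ w i * (2 * H (∑ l, x i l ^ 4)) :=
              mul_le_mul_of_nonneg_left (hH1 _ h3) (h.hw i).le
          _ = _ := by ring
    _ ≤ ∑ i, 2 * (w i * H (∑ l, x i l ^ 4)) := by
        apply Finset.sum_le_sum_of_subset_of_nonneg (Finset.subset_univ _)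
        intro i _ _
        have h1 := hH0 (∑ l, x i l ^ 4) (Finset.sum_nonneg fun l _ => by positivity)
        have h2 := (h.hw i).le
        positivity
    _ = 2 * ∑ i, w i * H (∑ l, x i l ^ 4) := by rw [← Finset.mul_sum]
    _ ≤ 2 * (c (2 * s) * ((((4 * s).factorial : ℝ) * s ^ 2 +
        2 * s * 3 ^ s * (1 + 2 * t) ^ (2 * s)) * (d : ℝ) ^ (s - 1))) := by linarith
    _ = _ := by ring

end Pool.Agent.A2B65
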