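import Pool.Agent.Lib.MP_a2be38_co_h69.OA

/-!
# A split orthogonal array

Sign vectors indexed by pairs `(ω₁, ω₂)` which are unbiased in strength `2 t + 1`, and for every
fixed `ω₂` still in strength `2 t - 1`; there are at least `n` values of `ω₂`.
-/

set_option autoImplicit false

open Finset

namespace Pool.Agent.A2B65

open Pool.Agent.A2B69

/-- split orthogonal arrays from BCH codes -/
theorem exists_split (s n : ℕ) (hn : 1 ≤ n) :
    ∃ (Ω₁ Ω₂ : Type) (_ : Fintype Ω₁) (_ : Fintype Ω₂) (_ : Nonempty Ω₁)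
      (ε : Fin n → Ω₁ → Ω₂ → ℝ) (_ : Fin n ↪ Ω₂),
      n < Fintype.card Ω₂ ∧
      Fintype.card Ω₂ ≤ 2 * n ∧
      Fintype.card Ω₁ = 2 * Fintype.card Ω₂ ^ s ∧
      (∀ x a b, ε x a b ^ 2 = 1) ∧
      (∀ S : Finset (Fin n), S.Nonempty → S.card ≤ 2 * s + 1 →
        ∀ b, ∑ a, ∏ x ∈ S, ε x a b = 0) ∧
      (∀ S : Finset (Fin n), S.Nonempty → S.card ≤ 2 * s + 3 →
        ∑ b, ∑ a, ∏ x ∈ S, ε x a b = 0) := by
  classical
  haveI : Fact (Nat.Prime 2) := ⟨Nat.prime_two⟩
  set m := Nat.log 2 n + 1 with hm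
  have hm1 : n < 2 ^ m := Nat.lt_pow_succ_log_self (by norm_num) n
  have hm2 : 2 ^ m ≤ 2 * n := by
    rw [hm, pow_succ, mul_comm]
    exact Nat.mul_le_mul_left 2 (Nat.pow_log_le_self 2 (by omega))
  let F := GaloisField 2 m
  haveI : Fintype F := Fintype.ofFinite F
  have hF : Fintype.card F = 2 ^ m := by
    rw [← Nat.card_eq_fintype_card]
    exact GaloisField.card 2 m (by omega)
  obtain ⟨e⟩ : Nonempty (Fin n ↪ F) := Function.Embedding.nonempty_of_card_le (by
    rw [Fintype.card_fin]; omega)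
  let V := ZMod 2 × (Fin s → F)
  haveI : Module.Finite (ZMod 2) F := Module.Finite.of_finite
  haveI : Module.Finite (ZMod 2) V := inferInstance
  haveI : Finite (Module.Dual (ZMod 2) V) := Module.finite_of_finite (ZMod 2)
  haveI : Fintype (Module.Dual (ZMod 2) V) := Fintype.ofFinite _
  haveI : Finite (Module.Dual (ZMod 2) F) := Module.finite_of_finite (ZMod 2)
  haveI : Fintype (Module.Dual (ZMod 2) F) := Fintype.ofFinite _
  have hcF : Fintype.card (Module.Dual (ZMod 2) F) = Fintype.card F := by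
    rw [Module.card_eq_pow_finrank (K := ZMod 2) (V := Module.Dual (ZMod 2) F),
      Module.card_eq_pow_finrank (K := ZMod 2) (V := F), Subspace.dual_finrank_eq]
  have hcV : Fintype.card (Module.Dual (ZMod 2) V) = 2 * Fintype.card F ^ s := by
    have h1 : Fintype.card (Module.Dual (ZMod 2) V) = Fintype.card V := by
      rw [Module.card_eq_pow_finrank (K := ZMod 2) (V := Module.Dual (ZMod 2) V),
        Module.card_eq_pow_finrank (K := ZMod 2) (V := V), Subspace.dual_finrank_eq]
    rw [h1]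
    simp only [V, Fintype.card_prod, ZMod.card, Fintype.card_fun, Fintype.card_fin]
  obtain ⟨j⟩ : Nonempty (Fin n ↪ Module.Dual (ZMod 2) F) :=
    Function.Embedding.nonempty_of_card_le (by rw [Fintype.card_fin, hcF]; omega)
  let H : Fin n → V := fun x => (1, fun i => e x ^ (2 * (i : ℕ) + 1))
  let K : Fin n → F := fun x => e x ^ (2 * s + 1)
  have hprod : ∀ (S : Finset (Fin n)) (a : Module.Dual (ZMod 2) V) (b : Module.Dual (ZMod 2) F),
      ∏ x ∈ S, (sg (a (H x)) * sg (b (K x))) =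
        sg (a (∑ x ∈ S, H x)) * sg (b (∑ x ∈ S, K x)) := by
    intro S a b
    rw [Finset.prod_mul_distrib, map_sum, map_sum, sg_sum, sg_sum]
  have hH : ∀ S : Finset (Fin n), (∑ x ∈ S, H x = 0) →
      (S.card : F) = 0 ∧ ∀ i < s, ∑ x ∈ S, e x ^ (2 * i + 1) = 0 := by
    intro S hzero
    constructor
    · have h2 := congrArg Prod.fst hzero
      rw [Prod.fst_sum] at h2
      simp only [H, Finset.sum_const, Prod.fst_zero] at h2
      rw [nsmul_eq_mul, mul_one] at h2
      have h3 := (CharP.cast_eq_zero_iff (ZMod 2) 2 S.card).mp h2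
      exact (CharP.cast_eq_zero_iff F 2 S.card).mpr h3
    · intro i hi
      have h2 := congrArg Prod.snd hzero
      rw [Prod.snd_sum] at h2
      have h3 := congrFun h2 ⟨i, hi⟩
      simpa [H] using h3
  refine ⟨Module.Dual (ZMod 2) V, Module.Dual (ZMod 2) F, inferInstance, inferInstance, ⟨0⟩,
    fun x a b => sg (a (H x)) * sg (b (K x)), j, ?_, ?_, ?_, ?_, ?_, ?_⟩
  · rw [hcF, hF]; exact hm1
  · rw [hcF, hF]; exact hm2
  · rw [hcF, hcV]
  · intro x a b
    rw [mul_pow, sg_sq, sg_sq, one_mul]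
  · intro S hS hcard b
    simp_rw [hprod]
    rw [← Finset.sum_mul, sum_dual, zero_mul]
    intro hzero
    obtain ⟨h1, h2⟩ := hH S hzero
    exact power_sums e e.injective s S hS hcard h1 h2
  · intro S hS hcard
    simp_rw [hprod]
    simp_rw [← Finset.sum_mul]
    rw [← Finset.mul_sum]
    by_cases hzero : ∑ x ∈ S, H x = 0
    · obtain ⟨h1, h2⟩ := hH S hzero
      rw [sum_dual (∑ x ∈ S, K x), mul_zero]
      intro hK
      refine power_sums e e.injective (s + 1) S hS (by omega) h1 ?_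
      intro i hi
      rcases Nat.lt_succ_iff_lt_or_eq.mp hi with h | h
      · exact h2 i h
      · rw [h]; exact hK
    · rw [sum_dual _ hzero, zero_mul]

end Pool.Agent.A2B65
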